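import Pool.Agent.TH823.OP.SmallJ
import Pool.Agent.TH823.EL.Near

set_option autoImplicit false

/-!
# The dichotomy for the sums of the characters over the primes of a window
-/

open Finset MeasureTheory
open scoped Real

namespace Pool.Agent.TH823.OP

open Pool.Agent.TH823.PS Pool.Agent.TH823.EL Pool.Agent.W66 Pool.Agent.W66L

lemma norm_sq_re (v : ℂ) (hv : ‖v‖ = 1) : v.re ^ 2 + v.im ^ 2 = 1 := by
  have := Complex.normSq_eq_norm_sq v
  rw [Complex.normSq_apply, hv] at this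
  nlinarith

theorem dich (κ1 : ℝ) (hκ1 : 0 < κ1) : ∃ c1 : ℝ, 0 < c1 ∧ c1 ≤ 1 ∧ ∃ E0 : ℕ, ∀ E : ℕ, E0 ≤ E → ∀ Q : ℕ, 14 ≤ Q →
    Dich 2 κ1 c1 Q (Q ^ 6) (Q ^ (6 * E)) ∧ (NE 6 E Q → Dich 1 κ1 c1 Q (Q ^ 6) (Q ^ (6 * E))) := by
  obtain ⟨C, hC, hfar⟩ := far_unit
  obtain ⟨C', hC', hlow⟩ := lower_all
  obtain ⟨c, hc0, hc1, hc2, hc3⟩ : ∃ c : ℝ, 0 < c ∧ c ≤ 1 / 338 ∧ c ≤ κ1 ^ 2 / 64 ∧ c ≤ κ1 / 4 :=
    ⟨min (1 / 338) (min (κ1 ^ 2 / 64) (κ1 / 4)), by positivity, min_le_left _ _,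
      (min_le_right _ _).trans (min_le_left _ _), (min_le_right _ _).trans (min_le_right _ _)⟩
  obtain ⟨E0, hE0, hW⟩ := W_large (2 * C / c + 100 * C')
  refine ⟨c / 2, by positivity, by linarith, E0, fun E hE Q hQ => ?_⟩
  have hWb := hW E hE Q (by omega)
  set y := Q ^ 6 with hy
  set z := Q ^ (6 * E) with hz
  have hyz : y ≤ z := Nat.pow_le_pow_right (by omega) (by omega)
  have hQy : Q ≤ y := Nat.le_self_pow (by omega) Q
  have hCc : 0 < 2 * C / c := by positivity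
  set W := WP (PP y z) with hWd
  have hW0 : 0 < W := by linarith
  have hCW : C ≤ c / 2 * W := by
    have h1 : 2 * C / c ≤ W := by linarith
    rw [div_le_iff₀ hc0] at h1
    linarith
  have hCW' : C' ≤ W / 100 := by linarith
  have key : ∀ (q : ℕ) [NeZero q], q ≤ Q → ∀ χ : DirichletCharacter ℂ q, ∀ t : ℝ, |t| ≤ (Q : ℝ) ^ 4 →
      ‖(∑ p ∈ PP y z, ct χ t p / p) / W‖ ≤ 1 - c / 2 ∨
      (1 - c / 2 < ‖(∑ p ∈ PP y z, ct χ t p / p) / W‖ ∧ ‖(∑ p ∈ PP y z, ct χ t p / p) / W‖ ≤ 1 ∧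
        ∃ v : ℂ, ‖v‖ = 1 ∧ (∑ p ∈ PP y z, ct χ t p / p) / W = ‖(∑ p ∈ PP y z, ct χ t p / p) / W‖ * v ∧
          1 - c < |v.re|) := by
    intro q _ hq χ t ht
    have hq0 : 0 < q := Nat.pos_of_ne_zero (NeZero.ne q)
    set B : ℂ := (∑ p ∈ PP y z, ct χ t p / p) / W with hB
    by_cases h1 : ‖B‖ ≤ 1 - c / 2
    · exact Or.inl h1
    right
    push Not at h1
    have hB0 : 0 < ‖B‖ := by linarith
    have hBc : (‖B‖ : ℂ) ≠ 0 := by exact_mod_cast hB0.ne'
    have hB1 : ‖B‖ ≤ 1 := by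
      rw [hB, norm_div, Complex.norm_real, Real.norm_of_nonneg hW0.le, div_le_one hW0, hWd]
      unfold WP
      refine (norm_sum_le _ _).trans (sum_le_sum fun p _ => ?_)
      rw [norm_div, Complex.norm_natCast]
      exact div_le_div_of_nonneg_right (norm_ct_le χ t p) (Nat.cast_nonneg p)
    refine ⟨h1, hB1, B / ‖B‖, ?_, ?_, ?_⟩
    · rw [norm_div, Complex.norm_real, norm_norm, div_self hB0.ne']
    · field_simp
    · by_contra h2
      push Not at h2
      set w : ℂ := (starRingEnd ℂ) (B / ‖B‖) with hw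
      have hw1 : ‖w‖ = 1 := by
        rw [hw, RCLike.norm_conj, norm_div, Complex.norm_real, norm_norm, div_self hB0.ne']
      have hwre : |w.re| ≤ 1 - c := by rw [hw, Complex.conj_re]; exact h2
      obtain ⟨m, hm1, hm13, hwm⟩ := exists_pow hw1
      have hm13r : (m : ℝ) ≤ 13 := by exact_mod_cast hm13
      have hm1r : (1 : ℝ) ≤ m := by exact_mod_cast hm1
      have hcm : c ≤ 1 / (2 * (m : ℝ) ^ 2) := by
        refine hc1.trans ?_
        apply one_div_le_one_div_of_le (by positivity)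
        have : (m : ℝ) ^ 2 ≤ 13 ^ 2 := pow_le_pow_left₀ (by linarith) hm13r 2
        linarith
      have h3 := hfar w hw1 c hc0.le hwre m hm1 hwm hcm q y z (by omega) hyz (hq.trans hQy) t
        (lq_bound hQ hq0 hq ht hm13) χ
      rw [← WP_eq, ← hWd] at h3
      have h4 : ∑ p ∈ PP y z, (w * ct χ t p).re / p = W * ‖B‖ := by
        have h5 : ∑ p ∈ PP y z, (w * ct χ t p).re / p = (w * ∑ p ∈ PP y z, ct χ t p / p).re := by
          rw [mul_sum, Complex.re_sum]
          apply sum_congr rfl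
          intro p _
          rw [mul_div_assoc', ← Complex.ofReal_natCast, Complex.div_ofReal_re]
        have h6 : ∑ p ∈ PP y z, ct χ t p / p = W * B := by
          rw [hB]
          have : (W : ℂ) ≠ 0 := by exact_mod_cast hW0.ne'
          field_simp
        have h7 : w * ((W : ℂ) * B) = ((W * ‖B‖ : ℝ) : ℂ) := by
          rw [hw, map_div₀, Complex.conj_ofReal]
          have h8 : (starRingEnd ℂ) B * B = ((‖B‖ ^ 2 : ℝ) : ℂ) := by
            rw [mul_comm, Complex.mul_conj, Complex.normSq_eq_norm_sq]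
          calc (starRingEnd ℂ) B / (‖B‖ : ℂ) * ((W : ℂ) * B) = W * ((starRingEnd ℂ) B * B) / ‖B‖ := by ring
            _ = _ := by rw [h8]; push_cast; field_simp
        rw [h5, h6, h7, Complex.ofReal_re]
      rw [h4] at h3
      have h5 : W * ‖B‖ ≤ W * (1 - c / 2) := by linarith
      have h6 := le_of_mul_le_mul_left h5 hW0
      linarith
  constructor
  · intro q _ hq χ t ht
    rcases key q hq χ t ht with h1 | ⟨h1, h2, v, hv, hBv, hvr⟩
    · exact Or.inl h1
    right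
    set B : ℂ := (∑ p ∈ PP y z, ct χ t p / p) / W with hB
    have h3 : 1 - B ^ 2 = ((1 - ‖B‖ ^ 2 : ℝ) : ℂ) + ((‖B‖ ^ 2 : ℝ) : ℂ) * (1 - v ^ 2) := by
      conv_lhs => rw [hBv]
      push_cast
      ring
    rw [h3]
    refine (norm_add_le _ _).trans ?_
    rw [norm_mul, Complex.norm_real, Complex.norm_real, Real.norm_eq_abs, Real.norm_eq_abs, abs_of_nonneg (by positivity : 0 ≤ ‖B‖ ^ 2)]
    have hB2 : ‖B‖ ^ 2 ≤ 1 := pow_le_one₀ (norm_nonneg _) h2
    have h4 : |1 - ‖B‖ ^ 2| ≤ κ1 / 2 := by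
      rw [abs_of_nonneg (by linarith)]
      nlinarith [norm_nonneg B]
    have h5 : ‖1 - v ^ 2‖ ≤ κ1 / 2 := by
      have h6 := norm_sq_re v hv
      have h7 : ‖1 - v ^ 2‖ ^ 2 = 4 * v.im ^ 2 := by
        rw [← Complex.normSq_eq_norm_sq, Complex.normSq_apply]
        have e1 : (1 - v ^ 2).re = 1 - (v.re ^ 2 - v.im ^ 2) := by
          rw [sq]; simp only [Complex.sub_re, Complex.one_re, Complex.mul_re]; ring
        have e2 : (1 - v ^ 2).im = -(2 * v.re * v.im) := by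
          rw [sq]; simp only [Complex.sub_im, Complex.one_im, Complex.mul_im]; ring
        rw [e1, e2]
        have e3 : v.re ^ 2 = 1 - v.im ^ 2 := by linarith
        have e4 : (1 - (v.re ^ 2 - v.im ^ 2)) * (1 - (v.re ^ 2 - v.im ^ 2)) +
            -(2 * v.re * v.im) * -(2 * v.re * v.im) =
            (1 - (v.re ^ 2 - v.im ^ 2)) ^ 2 + 4 * v.re ^ 2 * v.im ^ 2 := by ring
        rw [e4, e3]
        ring
      have h8 : v.im ^ 2 ≤ 2 * c := by
        have h9 : (1 - c) ^ 2 ≤ |v.re| ^ 2 := pow_le_pow_left₀ (by linarith) hvr.le 2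
        rw [sq_abs] at h9
        nlinarith
      have h10 : ‖1 - v ^ 2‖ ^ 2 ≤ (κ1 / 2) ^ 2 := by
        rw [h7]
        nlinarith
      exact (abs_le_of_sq_le_sq' h10 (by positivity)).2
    have h6 : ‖B‖ ^ 2 * ‖1 - v ^ 2‖ ≤ 1 * (κ1 / 2) := mul_le_mul hB2 h5 (norm_nonneg _) zero_le_one
    linarith
  · intro hNE q _ hq χ t ht
    have hq0 : 0 < q := Nat.pos_of_ne_zero (NeZero.ne q)
    rcases key q hq χ t ht with h1 | ⟨h1, h2, v, hv, hBv, hvr⟩
    · exact Or.inl h1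
    right
    set B : ℂ := (∑ p ∈ PP y z, ct χ t p / p) / W with hB
    have hl := hlow q y z (by omega) hyz (hq.trans hQy) (fun χ' h1 h2 => hNE q hq χ' h1 h2) t (by
      have := lq_bound hQ hq0 hq ht (m := 2) (by norm_num)
      exact_mod_cast this) χ
    rw [← WP_eq, ← hWd] at hl
    have h4 : ∑ p ∈ PP y z, rt χ t p / p = W * (‖B‖ * v.re) := by
      have h5 : ∑ p ∈ PP y z, rt χ t p / p = (∑ p ∈ PP y z, ct χ t p / p).re := by
        rw [Complex.re_sum]
        apply sum_congr rfl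
        intro p _
        rw [← Complex.ofReal_natCast, Complex.div_ofReal_re]
        rfl
      have h6 : ∑ p ∈ PP y z, ct χ t p / p = W * B := by
        rw [hB]
        have : (W : ℂ) ≠ 0 := by exact_mod_cast hW0.ne'
        field_simp
      rw [h5, h6]
      conv_lhs => rw [hBv]
      rw [Complex.re_ofReal_mul, Complex.re_ofReal_mul]
    have h5 : -(91 / 100) ≤ ‖B‖ * v.re := by
      have h6 : W * (-(91 / 100)) ≤ W * (‖B‖ * v.re) := by rw [← h4]; linarith
      exact le_of_mul_le_mul_left h6 hW0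
    have hvr2 : 1 - c < v.re := by
      rcases lt_abs.1 hvr with h6 | h6
      · exact h6
      · exfalso
        nlinarith [norm_nonneg B]
    rw [pow_one]
    have h3 : 1 - B = ((1 - ‖B‖ : ℝ) : ℂ) + (‖B‖ : ℂ) * (1 - v) := by
      conv_lhs => rw [hBv]
      push_cast
      ring
    rw [h3]
    refine (norm_add_le _ _).trans ?_
    rw [norm_mul, Complex.norm_real, Complex.norm_real, Real.norm_eq_abs, norm_norm, abs_of_nonneg (by linarith)]
    have h7 : ‖1 - v‖ ≤ κ1 / 2 := by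
      have h8 : ‖1 - v‖ ^ 2 = 2 * (1 - v.re) := by
        have h6 := norm_sq_re v hv
        rw [← Complex.normSq_eq_norm_sq, Complex.normSq_apply]
        simp only [Complex.sub_re, Complex.one_re, Complex.sub_im, Complex.one_im]
        nlinarith
      have h10 : ‖1 - v‖ ^ 2 ≤ (κ1 / 2) ^ 2 := by
        rw [h8]
        nlinarith
      exact (abs_le_of_sq_le_sq' h10 (by positivity)).2
    have h8 : ‖B‖ * ‖1 - v‖ ≤ 1 * (κ1 / 2) := mul_le_mul h2 h7 (norm_nonneg _) zero_le_one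
    linarith

end Pool.Agent.TH823.OP
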