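import Pool.Agent.TH823.OP.GoodJ
import Pool.Agent.TH823.OP.DichJ
import Pool.Agent.TH823.EL.PolyU

set_option autoImplicit false

/-!
# Shift families: families of shifts and polynomial values at every scale
-/

open Finset Polynomial

namespace Pool.Agent.TH823.OP

open Pool.Agent.TH823.PS Pool.Agent.TH823.EL

/-- **families and polynomial values, every scale** -/
theorem allJ (E01 B L p : ℕ) {ι : Type*} [Fintype ι] (P : ι → ℤ[X])
    (hd : ∀ i, 1 ≤ (P i).natDegree) {ε : ℝ} (hε : 0 < ε) :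
    ∃ E D : ℕ, E01 < E ∧ 6 * E + 2 ≤ D ∧ ∃ δ : ℝ, 0 < δ ∧ ∃ Q0 : ℕ, 3 ≤ Q0 ∧ ∀ Q : ℕ, Q0 ≤ Q →
      ∀ s : ℕ, s = 1 ∧ NE 6 E Q ∨ s = 2 →
      ∀ fj : ℕ → ℕ → ℂ, Sh (Q ^ 6) (Q ^ D) fj → ∀ N : ℕ, Q ^ (2 * D) ≤ N → N ≤ Q ^ (2 * D + 1) →
      GoodF (df s fj 0) B L p ε δ N ∧ ∀ i, PolyG (df s fj 0) B L (P i) ε δ N := by
  classical
  choose p0 A0 hp0 h using fun i => poly_of_good_u B L (P i) (hd i)
  set ε' := min ε 1 with hε'
  have hε'0 : 0 < ε' := lt_min hε one_pos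
  obtain ⟨κ1, hκ1, hgood⟩ := goodJ 2 (B + (∑ i, A0 i) * B) L (∑ i, p0 i + p + 1)
    (by omega) hε'0 (min_le_right _ _)
  obtain ⟨c1, hc1, hc11, E00, hdich⟩ := dich κ1 hκ1
  obtain ⟨E, D, hE, hD, Q0, hQ03, hQ0⟩ := hgood (E00 + E01) c1 hc1 hc11
  set δ0 : ℝ := 1 / (4 * (2 * ((∑ i, p0 i + p + 1 : ℕ) : ℝ) + 1) * ((3 * D : ℕ) : ℝ)) with hδ0d
  have hδ0 : 0 < δ0 := by
    have : (0 : ℝ) < ((3 * D : ℕ) : ℝ) := by exact_mod_cast (by omega : 0 < 3 * D)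
    positivity
  choose N1 hN1 using fun i => h i (∑ i, p0 i + p + 1)
    (by have := single_le_sum (f := p0) (fun _ _ => Nat.zero_le _) (mem_univ i); omega)
    (∑ i, A0 i) (single_le_sum (f := A0) (fun _ _ => Nat.zero_le _) (mem_univ i)) ε' δ0 hε'0 hδ0
  refine ⟨E, D, by omega, hD, δ0 / 2, by positivity, Q0 + ∑ i, N1 i + 14, by omega,
    fun Q hQ s hs fj hfj N hN1' hN2 => ?_⟩
  have hDich : Dich s κ1 c1 Q (Q ^ 6) (Q ^ (6 * E)) := by
    obtain ⟨h2, h1⟩ := hdich E (by omega) Q (by omega)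
    rcases hs with ⟨rfl, hs⟩ | rfl
    · exact h1 hs
    · exact h2
  have hG := hQ0 Q (by omega) s (by rcases hs with ⟨rfl, _⟩ | rfl <;> omega) fj hfj hDich N hN1' hN2
  have hQN : Q ≤ N := (Nat.le_self_pow (by omega) Q).trans hN1'
  refine ⟨?_, fun i => ?_⟩
  · refine good_anti (by omega) (min_le_left _ _) (by linarith) (good_monoB (by omega) (good_order (by omega) hG))
  · have h1 := hN1 i (df s fj 0) N (by
      have := single_le_sum (f := N1) (fun _ _ => Nat.zero_le _) (mem_univ i); omega) hG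
    intro x hx1 hx2 c' hc' a g ha hg
    refine le_trans ?_ (h1 x hx1 hx2 c' hc' a g ha hg)
    apply Nat.cast_le.2
    apply card_le_card
    intro m hm
    rw [mem_filter] at hm ⊢
    refine ⟨hm.1, fun hcon => hm.2 fun l X hX => (hcon l X hX).trans ?_⟩
    exact mul_le_mul_of_nonneg_right (min_le_left _ _) (Nat.cast_nonneg _)


end Pool.Agent.TH823.OP
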