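import Pool.Agent.TH823.OP.PlanchJ

set_option autoImplicit false

/-!
# The iterated multiplier inequality for all fractions
-/

open Finset MeasureTheory
open scoped Real FourierTransform
open Pool.Agent.Helper112

namespace Pool.Agent.TH823.OP

open Pool.Agent.TH823.PS Pool.Agent.TH823.EL Pool.Agent.W66 Pool.Agent.W66L

lemma Bm_le {q : ℕ} (P : Finset ℕ) (χ : DirichletCharacter ℂ q) (ξ : ℝ) :
    ‖Bm P (fun p => χ (p : ZMod q) / p) ξ‖ ≤ WP P := by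
  unfold Bm WP
  refine (norm_sum_le _ _).trans (sum_le_sum fun p _ => ?_)
  rw [norm_mul, ← neg_mul, ← Complex.ofReal_neg, Complex.norm_exp_ofReal_mul_I, mul_one, norm_div,
    Complex.norm_natCast]
  exact div_le_div_of_nonneg_right (χ.norm_le_one _) (Nat.cast_nonneg p)

theorem per_q_J {q : ℕ} [NeZero q] {P S K : Finset ℕ} (hW : 0 < WP P) (c : ℕ → ℕ → ℂ)
    (hP : ∀ p ∈ P, 0 < p ∧ p.Coprime q) (hS : ∀ s ∈ S, 0 < s) (hSK : ∀ s ∈ S, s ∈ K)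
    (hPK : ∀ s ∈ S, ∀ p ∈ P, p * s ∈ K) {h Ξ c1 κ1 : ℝ} (hh : 0 < h) (hΞ : 0 < Ξ)
    (hc1 : 0 ≤ c1) (hc11 : c1 ≤ 1) (s J : ℕ)
    (hm : ∀ χ : DirichletCharacter ℂ q, ∀ ξ : ℝ, |ξ| ≤ Ξ →
      ‖Bm P (fun p => χ (p : ZMod q) / p) ξ / WP P‖ ≤ 1 - c1 ∨
      ‖1 - (Bm P (fun p => χ (p : ZMod q) / p) ξ / WP P) ^ s‖ ≤ κ1) :
    ∑ a ∈ rr q, ∫ x, ‖ggC h S (fun n => (c s n - c 0 n) * ee (n * a / q)) x‖ ^ 2 ≤
      4 * ((1 - c1) ^ J) ^ 2 * ((∑ a ∈ rr q, ∫ x, ‖ggC h S (fun n => c J n * ee (n * a / q)) x‖ ^ 2) +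
        ∑ a ∈ rr q, ∫ x, ‖ggC h S (fun n => c (s + J) n * ee (n * a / q)) x‖ ^ 2) +
      2 * κ1 ^ 2 * (∑ a ∈ rr q, ∫ x, ‖ggC h S (fun n => c s n * ee (n * a / q)) x‖ ^ 2) +
      8 * (s + J : ℕ) / WP P ^ 2 * ∑ i ∈ range (s + J), (∑ a ∈ rr q,
        ∫ x, ‖ggC h K (fun n => gcp (WP P) P (fun p => 1 / p) S (c i) (c (i + 1)) n * ee (n * a / q)) x‖ ^ 2) +
      (1 / (h * Ξ)) ^ 2 * (∑ a ∈ rr q, ∫ x, ‖bbC h S (fun n => (c s n - c 0 n) * ee (n * a / q)) x‖ ^ 2) := by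
  have hq : 0 < q := Nat.pos_of_ne_zero (NeZero.ne q)
  have hφ : (0 : ℝ) < q.totient := by exact_mod_cast Nat.totient_pos.2 hq
  have mS := fun d : ℕ → ℂ => mean_chars (q := q) (triC h) S d (fun c' => ggC_sq_integrable hh S c')
  have mK := fun d : ℕ → ℂ => mean_chars (q := q) (triC h) K d (fun c' => ggC_sq_integrable hh K c')
  have mB := fun d : ℕ → ℂ => mean_chars (q := q) (boxC h) S d (fun c' => bbC_sq_integrable h S c')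
  have key : ∀ χ : DirichletCharacter ℂ q,
      (∫ x, ‖gen (triC h) S (fun n => (c s n - c 0 n) * tau χ n) x‖ ^ 2) ≤
      4 * ((1 - c1) ^ J) ^ 2 * ((∫ x, ‖gen (triC h) S (fun n => c J n * tau χ n) x‖ ^ 2) +
        ∫ x, ‖gen (triC h) S (fun n => c (s + J) n * tau χ n) x‖ ^ 2) +
      2 * κ1 ^ 2 * (∫ x, ‖gen (triC h) S (fun n => c s n * tau χ n) x‖ ^ 2) +
      8 * (s + J : ℕ) / WP P ^ 2 * ∑ i ∈ range (s + J),
        (∫ x, ‖gen (triC h) K (fun n => gcp (WP P) P (fun p => 1 / p) S (c i) (c (i + 1)) n * tau χ n) x‖ ^ 2) +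
      (1 / (h * Ξ)) ^ 2 * (∫ x, ‖gen (boxC h) S (fun n => (c s n - c 0 n) * tau χ n) x‖ ^ 2) := by
    intro χ
    have h1 := planch_J (W := WP P) hW (P := P) (w := fun p => χ (p : ZMod q) / p) (S := S) (K := K)
      (fun i n => c i n * tau χ n) (fun p hp => (hP p hp).1) hS hSK hPK hh hΞ hc1 hc11 s J
      (fun ξ => Bm_le P χ ξ) (hm χ)
    have h2 : ∀ i, gcp (WP P) P (fun p => χ (p : ZMod q) / p) S (fun n => c i n * tau χ n)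
        (fun n => c (i + 1) n * tau χ n) =
        fun n => gcp (WP P) P (fun p => 1 / p) S (c i) (c (i + 1)) n * tau χ n := by
      intro i
      ext k
      rw [gcp_def, gcp_def, sub_mul, sum_mul]
      congr 1
      · split_ifs
        · ring
        · ring
      · apply sum_congr rfl
        intro p hp
        split_ifs with h3
        · have h4 : tau χ k = χ (p : ZMod q) * tau χ (k / p) := by
            rw [← tau_mul hq χ (hP p hp).2, Nat.mul_div_cancel' h3.1]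
          rw [h4]
          ring
        · ring
    simp only [h2, ← sub_mul] at h1
    exact h1
  have e5 := sum_le_sum fun χ (_ : χ ∈ (univ : Finset (DirichletCharacter ℂ q))) => key χ
  simp only [sum_add_distrib, ← mul_sum] at e5
  rw [sum_comm (s := (univ : Finset (DirichletCharacter ℂ q))) (t := range (s + J))] at e5
  have f1 := mS (fun n => c s n - c 0 n)
  have f2 := mS (c J)
  have f3 := mS (c (s + J))
  have f4 := mS (c s)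
  have f5 := mB (fun n => c s n - c 0 n)
  have f6 : ∑ i ∈ range (s + J), ∑ χ : DirichletCharacter ℂ q,
      ∫ x, ‖gen (triC h) K (fun n => gcp (WP P) P (fun p => 1 / p) S (c i) (c (i + 1)) n * tau χ n) x‖ ^ 2 =
      q.totient * ∑ i ∈ range (s + J), (∑ a ∈ rr q,
        ∫ x, ‖ggC h K (fun n => gcp (WP P) P (fun p => 1 / p) S (c i) (c (i + 1)) n * ee (n * a / q)) x‖ ^ 2) := by
    rw [mul_sum]
    exact sum_congr rfl fun i _ => (mK (gcp (WP P) P (fun p => 1 / p) S (c i) (c (i + 1)))).symm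
  rw [← f1, ← f2, ← f3, ← f4, ← f5, f6] at e5
  have e6 : (q.totient : ℝ) * (∑ a ∈ rr q, ∫ x, ‖ggC h S (fun n => (c s n - c 0 n) * ee (n * a / q)) x‖ ^ 2) ≤
      (q.totient : ℝ) * (4 * ((1 - c1) ^ J) ^ 2 *
        ((∑ a ∈ rr q, ∫ x, ‖ggC h S (fun n => c J n * ee (n * a / q)) x‖ ^ 2) +
        ∑ a ∈ rr q, ∫ x, ‖ggC h S (fun n => c (s + J) n * ee (n * a / q)) x‖ ^ 2) +
      2 * κ1 ^ 2 * (∑ a ∈ rr q, ∫ x, ‖ggC h S (fun n => c s n * ee (n * a / q)) x‖ ^ 2) +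
      8 * (s + J : ℕ) / WP P ^ 2 * ∑ i ∈ range (s + J), (∑ a ∈ rr q,
        ∫ x, ‖ggC h K (fun n => gcp (WP P) P (fun p => 1 / p) S (c i) (c (i + 1)) n * ee (n * a / q)) x‖ ^ 2) +
      (1 / (h * Ξ)) ^ 2 * (∑ a ∈ rr q, ∫ x, ‖bbC h S (fun n => (c s n - c 0 n) * ee (n * a / q)) x‖ ^ 2)) := by
    refine le_trans e5 (le_of_eq ?_)
    unfold gen ggC bbC
    ring
  exact le_of_mul_le_mul_left e6 hφ

lemma EE_integral {h : ℝ} (h0 : 0 < h) (F : ℕ) (S : Finset ℕ) (c : ℕ → ℂ) :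
    ∫ x, EE h F S c x = ∑ q ∈ Icc 1 F, ∑ a ∈ rr q,
      ∫ x, ‖ggC h S (fun n => c n * ee (n * a / q)) x‖ ^ 2 := by
  unfold EE
  rw [integral_finsetSum _ (fun q _ => integrable_finsetSum _ fun a _ => ggC_sq_integrable h0 S _)]
  apply sum_congr rfl
  intro q _
  rw [integral_finsetSum _ (fun a _ => ggC_sq_integrable h0 S _)]

/-- the iterated multiplier inequality for all fractions -/
theorem energy_J {F : ℕ} {P S K : Finset ℕ} (hW : 0 < WP P) (c : ℕ → ℕ → ℂ)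
    (hP : ∀ p ∈ P, p.Prime ∧ F < p) (hS : ∀ s ∈ S, 0 < s) (hSK : ∀ s ∈ S, s ∈ K)
    (hK : ∀ s ∈ K, 0 < s)
    (hPK : ∀ s ∈ S, ∀ p ∈ P, p * s ∈ K) {h Ξ c1 κ1 : ℝ} (h0 : 0 < h) (h1 : h ≤ 1) (hΞ : 0 < Ξ)
    (hc1 : 0 ≤ c1) (hc11 : c1 ≤ 1) (s J : ℕ)
    (hm : ∀ (q : ℕ) [NeZero q], q ≤ F → ∀ χ : DirichletCharacter ℂ q, ∀ ξ : ℝ, |ξ| ≤ Ξ →
      ‖Bm P (fun p => χ (p : ZMod q) / p) ξ / WP P‖ ≤ 1 - c1 ∨
      ‖1 - (Bm P (fun p => χ (p : ZMod q) / p) ξ / WP P) ^ s‖ ≤ κ1) :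
    ∫ x, EE h F S (fun n => c s n - c 0 n) x ≤
      4 * ((1 - c1) ^ J) ^ 2 * ((∫ x, EE h F S (c J) x) + ∫ x, EE h F S (c (s + J)) x) +
      2 * κ1 ^ 2 * (∫ x, EE h F S (c s) x) +
      8 * (s + J : ℕ) / WP P ^ 2 * ∑ i ∈ range (s + J), (∑ n ∈ K, 6 * (15 * n + (1 + (F : ℝ) ^ 2) / h) *
        ‖gcp (WP P) P (fun p => 1 / p) S (c i) (c (i + 1)) n‖ ^ 2) +
      (1 / (h * Ξ)) ^ 2 * (∑ n ∈ S, 6 * (15 * n + (1 + (F : ℝ) ^ 2) / h) * ‖c s n - c 0 n‖ ^ 2) := by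
  simp only [EE_integral h0]
  have e2 : ∑ q ∈ Icc 1 F, ∑ a ∈ rr q, ∫ x, ‖ggC h S (fun n => (c s n - c 0 n) * ee (n * a / q)) x‖ ^ 2 ≤
      ∑ q ∈ Icc 1 F, (4 * ((1 - c1) ^ J) ^ 2 *
        ((∑ a ∈ rr q, ∫ x, ‖ggC h S (fun n => c J n * ee (n * a / q)) x‖ ^ 2) +
        ∑ a ∈ rr q, ∫ x, ‖ggC h S (fun n => c (s + J) n * ee (n * a / q)) x‖ ^ 2) +
      2 * κ1 ^ 2 * (∑ a ∈ rr q, ∫ x, ‖ggC h S (fun n => c s n * ee (n * a / q)) x‖ ^ 2) +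
      8 * (s + J : ℕ) / WP P ^ 2 * ∑ i ∈ range (s + J), (∑ a ∈ rr q,
        ∫ x, ‖ggC h K (fun n => gcp (WP P) P (fun p => 1 / p) S (c i) (c (i + 1)) n * ee (n * a / q)) x‖ ^ 2) +
      (1 / (h * Ξ)) ^ 2 * (∑ a ∈ rr q, ∫ x, ‖bbC h S (fun n => (c s n - c 0 n) * ee (n * a / q)) x‖ ^ 2)) := by
    apply sum_le_sum
    intro q hq
    rw [mem_Icc] at hq
    have : NeZero q := ⟨by omega⟩
    refine per_q_J hW c (fun p hp => ⟨(hP p hp).1.pos, ?_⟩) hS hSK hPK h0 hΞ hc1 hc11 s J (hm q hq.2)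
    rw [Nat.Prime.coprime_iff_not_dvd (hP p hp).1]
    intro hd
    have := Nat.le_of_dvd (by omega) hd
    have := (hP p hp).2
    omega
  refine e2.trans ?_
  simp only [sum_add_distrib, ← mul_sum]
  rw [sum_comm (s := Icc 1 F) (t := range (s + J))]
  have g1 : 8 * (s + J : ℕ) / WP P ^ 2 * ∑ i ∈ range (s + J), ∑ q ∈ Icc 1 F, ∑ a ∈ rr q,
      ∫ x, ‖ggC h K (fun n => gcp (WP P) P (fun p => 1 / p) S (c i) (c (i + 1)) n * ee (n * a / q)) x‖ ^ 2 ≤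
      8 * (s + J : ℕ) / WP P ^ 2 * ∑ i ∈ range (s + J), (∑ n ∈ K, 6 * (15 * n + (1 + (F : ℝ) ^ 2) / h) *
        ‖gcp (WP P) P (fun p => 1 / p) S (c i) (c (i + 1)) n‖ ^ 2) := by
    apply mul_le_mul_of_nonneg_left _ (by positivity)
    exact sum_le_sum fun i _ => ls_gg F K hK _ h0 h1
  have g2 := mul_le_mul_of_nonneg_left (ls_bb F S hS (fun n => c s n - c 0 n) h0 h1)
    (by positivity : 0 ≤ (1 / (h * Ξ)) ^ 2)
  linarith

end Pool.Agent.TH823.OP
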