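import Pool.Agent.TH823.OP.StepJ

set_option autoImplicit false

/-!
# Pairs of functions: the energy at every scale
-/

open Finset MeasureTheory
open scoped Real
open Pool.Agent.Helper112

namespace Pool.Agent.TH823.OP

open Pool.Agent.TH823.PS Pool.Agent.TH823.EL Pool.Agent.W66 Pool.Agent.W66L

/-- the energy at every scale -/
theorem engineJ (κ : ℝ) (hκ : 0 < κ) (hκ1 : κ ≤ 1) : ∃ E1 : ℕ, ∀ E' : ℕ, E1 ≤ E' → ∀ b E : ℕ, 6 ≤ b →
    1 ≤ E → 6 * E ≤ b * E' → ∃ Q0 : ℕ, ∀ Q : ℕ, Q0 ≤ Q → ∀ (f g : ℕ → ℂ), (∀ n, ‖f n‖ ≤ 1) → (∀ n, ‖g n‖ ≤ 1) →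
    (∀ p n : ℕ, p.Prime → Q ^ 6 < p → p ≤ Q ^ (b * E') → ¬ p ∣ n → f (p * n) = g n) →
    ∫ x, EE (1 / (Q : ℝ) ^ 3) Q (Ioc (Q ^ (6 * E)) (Q ^ (3 * b * E'))) (fun n => g n / n) x ≤
      κ / (36 * E') * (((3 * b * E' : ℕ) : ℝ) * Real.log Q) →
    ∀ s : ℝ, ((6 * E + b * E' + 1 : ℕ) : ℝ) * Real.log Q ≤ s → s ≤ ((3 * b * E' : ℕ) : ℝ) * Real.log Q - 1 →
    ∫ x in Set.Iic s, Real.exp x *
      EE (1 / (Q : ℝ) ^ 3) Q (Ioc (Q ^ (6 * E)) (Q ^ (3 * b * E'))) (fun n => f n / n) x ≤ κ * Real.exp s := by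
  obtain ⟨CW, hCW, hW⟩ := WW_est
  obtain ⟨E1, hE1⟩ := exists_nat_ge (Real.exp (10 ^ 6 / κ + CW))
  refine ⟨E1, fun E' hEE' b E hb hE00 hbE => ?_⟩
  have hE' : Real.exp (10 ^ 6 / κ + CW) ≤ (E' : ℝ) := hE1.trans (by exact_mod_cast hEE')
  have hE0 : (1 : ℝ) ≤ E' := by
    refine le_trans ?_ hE'
    have : 0 ≤ 10 ^ 6 / κ + CW := by positivity
    exact Real.one_le_exp this
  have hE1 : 1 ≤ E' := by exact_mod_cast hE0
  obtain ⟨Q1, hQ1⟩ := exists_nat_ge (36000 / κ)
  refine ⟨Q1 + 3, fun Q hQ f g hf hg hm hint s hs1 hs2 => ?_⟩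
  have hQ3 : 3 ≤ Q := by omega
  have hQr : (3 : ℝ) ≤ Q := by exact_mod_cast hQ3
  have hQ0 : (0 : ℝ) < Q := by linarith
  have hQκ : 36000 / κ ≤ (Q : ℝ) := hQ1.trans (by exact_mod_cast (by omega : Q1 ≤ Q))
  have hL := log_ge_one hQ3
  set L := Real.log Q with hLdef
  set z := Q ^ (6 * E) with hz
  set N := Q ^ (3 * b * E') with hN
  set y' := Q ^ b with hy'
  set z' := Q ^ (b * E') with hz'
  have hb0 : 1 ≤ b := by omega
  have hyz' : y' ≤ z' := Nat.pow_le_pow_right (by omega) (Nat.le_mul_of_pos_right b hE1)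
  have hy6 : Q ^ 6 ≤ y' := Nat.pow_le_pow_right (by omega) hb
  have hQy : Q ≤ y' := Nat.le_self_pow (by omega) Q
  have hz'0 : 0 < z' := by positivity
  have hzz : z ≤ z' := Nat.pow_le_pow_right (by omega) hbE
  have hW1 := (abs_le.1 (hW Q b (b * E') hQ3 hb0 (Nat.le_mul_of_pos_right b hE1))).1
  have hbr : (0 : ℝ) < b := by exact_mod_cast hb0
  have hW2 : Real.log (((b * E' : ℕ) : ℝ) / (b : ℕ)) = Real.log E' := by
    congr 1; push_cast; field_simp
  rw [hW2] at hW1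
  have hWE : 10 ^ 6 / κ + CW ≤ Real.log E' := by
    rw [Real.le_log_iff_exp_le (by linarith)]
    exact hE'
  have hWW : 10 ^ 6 / κ ≤ WP (PP y' z') := by
    rw [WP_eq]
    linarith
  set W := WP (PP y' z') with hWdef
  have hW6 : (10 : ℝ) ^ 6 ≤ W := by
    refine le_trans ?_ hWW
    rw [le_div_iff₀ hκ]
    linarith
  have hWp : 0 < W := by linarith
  set h : ℝ := 1 / (Q : ℝ) ^ 3 with hh
  have h0 : 0 < h := by positivity
  have h1 : h ≤ 1 := by
    rw [hh, div_le_one (by positivity)]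
    exact one_le_pow₀ (by linarith)
  set S := Ioc z N with hS
  set K := Ioc z (N * z') with hK
  set G : ℝ → ℝ := EE h Q S (fun n => f n / n) with hG
  set G' : ℝ → ℝ := EE h Q S (fun n => g n / n) with hG'
  set u : ℕ → ℂ := gcp W (PP y' z') (fun p => 1 / p) S (fun n => f n / n) (fun n => g n / n) with hu
  set Φ := ∫ x in Set.Iic s, Real.exp x * G x with hΦ
  set Φg := ∫ x in Set.Iic s, Real.exp x * EE h Q K u x with hΦg
  have hGi : Integrable G' := EE_int h0 Q S _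
  have hG0 : ∀ x, 0 ≤ G' x := EE_nonneg h Q S _
  have hsh := shift_int (y := y') (z := z') (by omega) hGi hG0 s
  have hstep : ∀ x, W ^ 2 * G x ≤ 2 * EE h Q K u x + 2 * W * ∑ p ∈ PP y' z', 1 / (p : ℝ) * G' (x - Real.log p) := by
    intro x
    refine EEp_step (fun p => 1 / p) (fun n => f n / n) (fun n => g n / n)
      (fun p hp => ⟨(mem_PP.1 hp).2, lt_of_le_of_lt hQy (mem_PP.1 hp).1.1⟩) ?_
      (fun s hs => by rw [hS, mem_Ioc] at hs; omega)
      (fun s hs => by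
        rw [hS, mem_Ioc] at hs
        rw [hK, mem_Ioc]
        exact ⟨hs.1, hs.2.trans (Nat.le_mul_of_pos_right N hz'0)⟩)
      (fun s hs p hp => by
        rw [hS, mem_Ioc] at hs
        rw [hK, mem_Ioc]
        rw [mem_PP] at hp
        exact ⟨lt_of_lt_of_le hs.1 (Nat.le_mul_of_pos_left s hp.2.pos),
          (Nat.mul_le_mul hp.1.2 hs.2).trans (le_of_eq (mul_comm _ _))⟩) h x
    intro p hp
    rw [norm_div, Complex.norm_natCast, norm_one]
  have hi1 : IntegrableOn (fun x => Real.exp x * G x) (Set.Iic s) := expEE_int h0 Q S _ s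
  have hi2 : IntegrableOn (fun x => Real.exp x * EE h Q K u x) (Set.Iic s) := expEE_int h0 Q K _ s
  have hmain : W ^ 2 * Φ ≤ 2 * Φg + 2 * W * (Real.log 4 / Real.log y' * Real.exp s * ∫ x, G' x) := by
    calc W ^ 2 * Φ = ∫ x in Set.Iic s, W ^ 2 * (Real.exp x * G x) := by rw [hΦ, integral_const_mul]
      _ ≤ ∫ x in Set.Iic s, (2 * (Real.exp x * EE h Q K u x) +
            2 * W * (Real.exp x * ∑ p ∈ PP y' z', 1 / (p : ℝ) * G' (x - Real.log p))) := by
          apply integral_mono (hi1.const_mul _) ((hi2.const_mul _).add (hsh.1.const_mul _))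
          intro x
          change W ^ 2 * (Real.exp x * G x) ≤ 2 * (Real.exp x * EE h Q K u x) +
            2 * W * (Real.exp x * ∑ p ∈ PP y' z', 1 / (p : ℝ) * G' (x - Real.log p))
          have h3 := mul_le_mul_of_nonneg_left (hstep x) (Real.exp_pos x).le
          linarith
      _ = 2 * Φg + 2 * W * ∫ x in Set.Iic s, Real.exp x * ∑ p ∈ PP y' z', 1 / (p : ℝ) * G' (x - Real.log p) := by
          rw [integral_add (hi2.const_mul _) (hsh.1.const_mul _), integral_const_mul, integral_const_mul]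
      _ ≤ _ := by
          have := mul_le_mul_of_nonneg_left hsh.2 (by positivity : 0 ≤ 2 * W)
          linarith
  -- the second term
  have hes := Real.exp_pos s
  have hlogy : Real.log y' = b * L := by
    rw [hy']; push_cast; rw [Real.log_pow]
  have ht2 : 2 * W * (Real.log 4 / Real.log y' * Real.exp s * ∫ x, G' x) ≤ κ / 4 * W * Real.exp s := by
    have hl4 : Real.log 4 ≤ 3 / 2 := by
      have : Real.log 4 = 2 * Real.log 2 := by
        rw [show (4 : ℝ) = 2 ^ 2 by norm_num, Real.log_pow]; norm_num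
      rw [this]
      have := Real.log_two_lt_d9
      linarith
    have hl40 : 0 ≤ Real.log 4 := Real.log_nonneg (by norm_num)
    have hbL : 0 < (b : ℝ) * L := by positivity
    rw [hlogy]
    have h3 : Real.log 4 / (b * L) * Real.exp s * ∫ x, G' x ≤
        (3 / 2) / (b * L) * Real.exp s * (κ / (36 * E') * (((3 * b * E' : ℕ) : ℝ) * L)) := by
      apply mul_le_mul _ hint (integral_nonneg hG0) (by positivity)
      apply mul_le_mul_of_nonneg_right _ hes.le
      exact div_le_div_of_nonneg_right hl4 hbL.le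
    have h4 : (3 / 2) / (b * L) * Real.exp s * (κ / (36 * E') * (((3 * b * E' : ℕ) : ℝ) * L)) =
        κ / 8 * Real.exp s := by
      push_cast
      have : (E' : ℝ) ≠ 0 := by positivity
      field_simp
      ring
    rw [h4] at h3
    calc _ ≤ 2 * W * (κ / 8 * Real.exp s) := mul_le_mul_of_nonneg_left h3 (by positivity)
      _ = _ := by ring
  -- the first term
  have hlogN : Real.log N = ((3 * b * E' : ℕ) : ℝ) * L := by
    rw [hN]; push_cast; rw [Real.log_pow]; push_cast; ring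
  have hlogz : Real.log z' = ((b * E' : ℕ) : ℝ) * L := by
    rw [hz']; push_cast; rw [Real.log_pow]; push_cast; ring
  have hNr : (0 : ℝ) < N := by rw [hN]; positivity
  have hz'r : (0 : ℝ) < z' := by exact_mod_cast hz'0
  set X := ⌊Real.exp (s + h)⌋₊ with hX
  have hXN : X ≤ N := by
    have h3 : Real.exp (s + h) ≤ N := by
      rw [← Real.exp_log hNr, hlogN]
      exact Real.exp_le_exp.2 (by linarith)
    have h4 : X ≤ ⌊(N : ℝ)⌋₊ := Nat.floor_mono h3
    rwa [Nat.floor_natCast] at h4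
  have hzX : z' ≤ X := by
    apply Nat.le_floor
    rw [← Real.exp_log hz'r, hlogz]
    apply Real.exp_le_exp.2
    have h3 : ((b * E' : ℕ) : ℝ) * L ≤ ((6 * E + b * E' + 1 : ℕ) : ℝ) * L := by
      apply mul_le_mul_of_nonneg_right _ (by linarith)
      exact_mod_cast (by omega : b * E' ≤ 6 * E + b * E' + 1)
    linarith
  have hXe : (X : ℝ) ≤ Real.exp 1 * Real.exp s := by
    have h3 := Nat.floor_le (Real.exp_pos (s + h)).le
    refine h3.trans ?_
    rw [← Real.exp_add]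
    exact Real.exp_le_exp.2 (by linarith)
  have hgs := sum_of_sq (y' := y') (z' := z') (M := z) (N := N) (X := X) (u := u) (fun k hk => gcp_sq hf hg
    (fun p n hp h3 h4 h5 => hm p n hp h3 h4 h5) hy6 (le_refl z') hz'0 hk) hXN hzX
  rw [← hWdef] at hgs
  have he1 : Real.exp 1 ≤ 2.7182818286 := Real.exp_one_lt_d9.le
  have he0 := Real.exp_pos 1
  have hΦg1 : Φg ≤ 102 * Real.exp 1 * (48 * W * X + 32 * X + 16 * W ^ 2 * (z * z')) := by
    have h3 := ls_exp (F := Q) (K := K) (fun n hn => by rw [hK, mem_Ioc] at hn; omega) u h0 h1 s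
    refine h3.trans ?_
    refine le_trans ?_ (mul_le_mul_of_nonneg_left hgs (by positivity))
    rw [mul_sum]
    have hsub : K.filter (fun n : ℕ => Real.log n ≤ s + h) ⊆ Icc 1 X := by
      intro n hn
      rw [mem_filter, hK, mem_Ioc] at hn
      rw [mem_Icc]
      have hn0 : (0 : ℝ) < n := by exact_mod_cast (by omega : 0 < n)
      refine ⟨by omega, Nat.le_floor ?_⟩
      rw [← Real.exp_log hn0]
      exact Real.exp_le_exp.2 hn.2
    refine (sum_le_sum fun n hn => ?_).trans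
      (sum_le_sum_of_subset_of_nonneg hsub fun n _ _ => by positivity)
    rw [mem_filter, hK, mem_Ioc] at hn
    have hn0 : (0 : ℝ) < n := by exact_mod_cast (by omega : 0 < n)
    have h2 : (1 + (Q : ℝ) ^ 2) / h ≤ 2 * n := by
      rw [hh, div_div_eq_mul_div, div_one]
      have h3 : (Q : ℝ) ^ 6 ≤ n := by
        have h4 : Q ^ 6 ≤ n := by
          have : Q ^ 6 ≤ z := Nat.pow_le_pow_right (by omega) (by omega)
          omega
        exact_mod_cast h4
      have h4 : (1 : ℝ) ≤ (Q : ℝ) ^ 2 := one_le_pow₀ (by linarith)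
      have h5 : (0 : ℝ) < (Q : ℝ) ^ 3 := by positivity
      have h6 : (1 + (Q : ℝ) ^ 2) * (Q : ℝ) ^ 3 ≤ 2 * (Q : ℝ) ^ 5 := by
        have h8 := mul_le_mul_of_nonneg_right h4 h5.le
        linarith
      have h7 : (Q : ℝ) ^ 5 ≤ (Q : ℝ) ^ 6 := pow_le_pow_right₀ (by linarith) (by norm_num)
      linarith
    have h3 : 6 * (15 * (n : ℝ) + (1 + (Q : ℝ) ^ 2) / h) ≤ 102 * n := by linarith
    calc 6 * (15 * (n : ℝ) + (1 + (Q : ℝ) ^ 2) / h) * (Real.exp 1 * n) * ‖u n‖ ^ 2 ≤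
          102 * n * (Real.exp 1 * n) * ‖u n‖ ^ 2 := by gcongr
      _ = 102 * Real.exp 1 * (n * ‖u n‖) ^ 2 := by ring
  -- final numerics
  have hzz' : 36000 / κ * ((z : ℝ) * z') ≤ Real.exp s := by
    have h3 : Real.exp (((6 * E + b * E' + 1 : ℕ) : ℝ) * L) ≤ Real.exp s := Real.exp_le_exp.2 hs1
    refine le_trans ?_ h3
    have h4 : Real.exp (((6 * E + b * E' + 1 : ℕ) : ℝ) * L) = (Q : ℝ) * (z * z') := by
      rw [Real.exp_nat_mul, hLdef, Real.exp_log hQ0, hz, hz']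
      push_cast
      ring
    rw [h4]
    exact mul_le_mul_of_nonneg_right hQκ (by positivity)
  have hzz2 : (z : ℝ) * z' ≤ κ / 36000 * Real.exp s := by
    rw [div_mul_eq_mul_div, div_le_iff₀ hκ] at hzz'
    linarith
  have hκW : 10 ^ 6 ≤ κ * W := by
    rw [div_le_iff₀ hκ] at hWW
    linarith
  set e := Real.exp 1 with he
  have q1 : 48 * W * X + 32 * X + 16 * W ^ 2 * ((z : ℝ) * z') ≤
      W ^ 2 * ((80 * κ / 10 ^ 6 + 4 * κ / 10 ^ 5) * (e * Real.exp s) + 16 * κ / 36000 * Real.exp s) := by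
    have hX0 : (0 : ℝ) ≤ X := Nat.cast_nonneg X
    have a1 : 48 * W * X + 32 * X ≤ W ^ 2 * (80 * κ / 10 ^ 6) * X := by
      have h3 : 48 * W + 32 ≤ 80 * W := by linarith
      have h4 : 80 * W ≤ W ^ 2 * (80 * κ / 10 ^ 6) := by
        have h5 := mul_le_mul_of_nonneg_left hκW hWp.le
        have h6 : W ^ 2 * (80 * κ / 10 ^ 6) = 80 / 10 ^ 6 * (W * (κ * W)) := by ring
        rw [h6]
        linarith
      have h5 := mul_le_mul_of_nonneg_right (h3.trans h4) hX0
      linarith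
    have a2 : 0 ≤ W ^ 2 * (4 * κ / 10 ^ 5) * X := by positivity
    have a3 : 16 * W ^ 2 * ((z : ℝ) * z') ≤ W ^ 2 * (16 * κ / 36000 * Real.exp s) := by
      have h3 := mul_le_mul_of_nonneg_left hzz2 (by positivity : 0 ≤ 16 * W ^ 2)
      linarith
    have a4 : W ^ 2 * (80 * κ / 10 ^ 6) * X + W ^ 2 * (4 * κ / 10 ^ 5) * X ≤
        W ^ 2 * ((80 * κ / 10 ^ 6 + 4 * κ / 10 ^ 5) * (e * Real.exp s)) := by
      have h3 := mul_le_mul_of_nonneg_left hXe (by positivity : 0 ≤ W ^ 2 * (80 * κ / 10 ^ 6 + 4 * κ / 10 ^ 5))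
      linarith
    linarith
  have q2 : 2 * Φg ≤ W ^ 2 * (κ / 2 * Real.exp s) := by
    have h3 := mul_le_mul_of_nonneg_left q1 (by positivity : 0 ≤ 2 * (102 * e))
    have h4 : 2 * (102 * e) * (W ^ 2 * ((80 * κ / 10 ^ 6 + 4 * κ / 10 ^ 5) * (e * Real.exp s) +
        16 * κ / 36000 * Real.exp s)) = W ^ 2 * κ * Real.exp s * (204 * e ^ 2 * (12 / 10 ^ 5) + 204 * e * (16 / 36000)) := by
      ring
    have h5 : 204 * e ^ 2 * (12 / 10 ^ 5) + 204 * e * (16 / 36000) ≤ 1 / 2 := by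
      have h7 : e ^ 2 ≤ 3 ^ 2 := pow_le_pow_left₀ he0.le (by linarith) 2
      linarith
    have h6 := mul_le_mul_of_nonneg_left h5 (by positivity : 0 ≤ W ^ 2 * κ * Real.exp s)
    linarith
  have hκes : 0 ≤ κ * Real.exp s := by positivity
  have q3 : κ / 4 * W * Real.exp s ≤ W ^ 2 * (κ / 4 * Real.exp s) := by
    have h3 : W ≤ W ^ 2 := le_self_pow₀ (by linarith) two_ne_zero
    have h4 := mul_le_mul_of_nonneg_right h3 (by positivity : 0 ≤ κ / 4 * Real.exp s)
    linarith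
  have q4 : W ^ 2 * Φ ≤ W ^ 2 * (κ * Real.exp s) := by
    have h3 : W ^ 2 * (κ / 2 * Real.exp s) + W ^ 2 * (κ / 4 * Real.exp s) ≤ W ^ 2 * (κ * Real.exp s) := by
      have : 0 ≤ W ^ 2 * (κ * Real.exp s) := by positivity
      linarith
    linarith
  exact le_of_mul_le_mul_left q4 (by positivity)

end Pool.Agent.TH823.OP
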