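import Pool.Agent.TH823.OP.EngineJ

set_option autoImplicit false

/-!
# Shift families: the energy of the differences at every scale
-/

open Finset MeasureTheory
open scoped Real
open Pool.Agent.Helper112

namespace Pool.Agent.TH823.OP

open Pool.Agent.TH823.PS Pool.Agent.TH823.EL Pool.Agent.W66 Pool.Agent.W66L

lemma EE_smul (h : ℝ) (F : ℕ) (K : Finset ℕ) (a : ℂ) (c : ℕ → ℂ) (x : ℝ) :
    EE h F K (fun n => a * c n) x = ‖a‖ ^ 2 * EE h F K c x := by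
  unfold EE
  rw [mul_sum]
  apply sum_congr rfl
  intro q _
  rw [mul_sum]
  apply sum_congr rfl
  intro b _
  have e1 : ggC h K (fun n => a * c n * ee (n * b / q)) x = a * ggC h K (fun n => c n * ee (n * b / q)) x := by
    unfold ggC
    rw [mul_sum]
    exact sum_congr rfl fun _ _ => by ring
  rw [e1, norm_mul, mul_pow]

lemma Sh.shift {y z : ℕ} {f : ℕ → ℕ → ℂ} (h : Sh y z f) : Sh y z (fun j => f (j + 1)) :=
  ⟨fun j n => h.bd (j + 1) n, fun j p n hp h1 h2 h3 => h.mul (j + 1) p n hp h1 h2 h3⟩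

/-- half of the difference -/
noncomputable def df (s : ℕ) (f : ℕ → ℕ → ℂ) (j n : ℕ) : ℂ := (f (j + s) n - f j n) / 2

lemma df_bd {y z s : ℕ} {f : ℕ → ℕ → ℂ} (h : Sh y z f) (j n : ℕ) : ‖df s f j n‖ ≤ 1 := by
  unfold df
  rw [norm_div, Complex.norm_ofNat, div_le_one (by norm_num)]
  refine (norm_sub_le _ _).trans ?_
  have := h.bd (j + s) n
  have := h.bd j n
  linarith

lemma df_mul {y z s : ℕ} {f : ℕ → ℕ → ℂ} (h : Sh y z f) (j p n : ℕ) (hp : p.Prime) (h1 : y < p) (h2 : p ≤ z)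
    (h3 : ¬ p ∣ n) : df s f j (p * n) = df s f (j + 1) n := by
  unfold df
  rw [h.mul _ p n hp h1 h2 h3, h.mul _ p n hp h1 h2 h3]
  congr 3
  ring

/-- the energy of the differences up to every scale between `Q ^ (2 D - 1)` and `Q ^ (3 D)` is small -/
theorem everyJ (S : ℕ) (κ : ℝ) (hκ : 0 < κ) (hκ1 : κ ≤ 1) : ∃ κ1 : ℝ, 0 < κ1 ∧ ∀ (E00 : ℕ) (c1 : ℝ), 0 < c1 → c1 ≤ 1 →
    ∃ E b D : ℕ, E00 < E ∧ 6 ≤ b ∧ b ≤ D ∧ 6 * E + 2 ≤ D ∧ ∃ Q0 : ℕ, 3 ≤ Q0 ∧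
    ∀ Q : ℕ, Q0 ≤ Q → 1 / κ ≤ WP (PP (Q ^ b) (Q ^ D)) ∧
    ∀ s ≤ S, ∀ f : ℕ → ℕ → ℂ, Sh (Q ^ 6) (Q ^ D) f →
    Dich s κ1 c1 Q (Q ^ 6) (Q ^ (6 * E)) →
    ∀ t : ℝ, ((2 * D - 1 : ℕ) : ℝ) * Real.log Q ≤ t → t ≤ ((3 * D : ℕ) : ℝ) * Real.log Q - 1 →
    ∫ x in Set.Iic t, Real.exp x *
      EE (1 / (Q : ℝ) ^ 3) Q (Ioc (Q ^ (6 * E)) (Q ^ (3 * D))) (fun n => df s f 0 n / n) x ≤ κ * Real.exp t := by
  obtain ⟨CW, hCW, hW⟩ := WW_est
  obtain ⟨E0, hen⟩ := engineJ κ hκ hκ1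
  obtain ⟨E2, hE2⟩ := exists_nat_ge (Real.exp (1 / κ + CW))
  obtain ⟨E', hE'0, hE'1, hE'2⟩ : ∃ E' : ℕ, E0 ≤ E' ∧ E2 ≤ E' ∧ 1 ≤ E' := ⟨E0 + E2 + 1, by omega, by omega, by omega⟩
  have hE'r : (1 : ℝ) ≤ E' := by exact_mod_cast hE'2
  obtain ⟨κ1, hκ10, hsm⟩ := energy_smallJ (κ / (36 * E')) (by positivity)
  refine ⟨κ1, hκ10, fun E00 c1 hc1 hc11 => ?_⟩
  choose E1 hsm using fun s => hsm s c1 hc1 hc11
  set E := ∑ s ∈ range (S + 1), E1 s + E00 + 1 with hE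
  have hE1E : ∀ s ≤ S, E1 s ≤ E := fun s hs => by
    have := single_le_sum (f := E1) (fun _ _ => Nat.zero_le _) (mem_range.2 (by omega : s < S + 1))
    omega
  have hB : ∀ s : ℕ, ∃ B1 : ℕ, s ≤ S → ∀ B : ℕ, B1 ≤ B →
      ∃ Q1 : ℕ, ∀ Q : ℕ, Q1 ≤ Q → ∀ f : ℕ → ℕ → ℂ, Sh (Q ^ 6) (Q ^ (6 * E)) f →
      Dich s κ1 c1 Q (Q ^ 6) (Q ^ (6 * E)) →
      ∫ x, EE (1 / (Q : ℝ) ^ 3) Q (Ioc (Q ^ (6 * E)) (Q ^ B)) (fun n => (f s n - f 0 n) / n) x ≤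
      κ / (36 * E') * (B * Real.log Q) := by
    intro s
    by_cases hs : s ≤ S
    · obtain ⟨B1, hB1⟩ := hsm s E (hE1E s hs)
      exact ⟨B1, fun _ => hB1⟩
    · exact ⟨0, fun h => absurd h hs⟩
  choose Bs hBs using hB
  set B1 := ∑ s ∈ range (S + 1), Bs s with hB1d
  have hBB : ∀ s ≤ S, Bs s ≤ B1 := fun s hs =>
    single_le_sum (f := Bs) (fun _ _ => Nat.zero_le _) (mem_range.2 (by omega : s < S + 1))
  set b := 6 * E + B1 + 8 with hb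
  have hbD : b ≤ b * E' := Nat.le_mul_of_pos_right b hE'2
  have h3D : b * E' ≤ 3 * (b * E') := by omega
  have hQs : ∀ s : ℕ, ∃ Q1 : ℕ, s ≤ S → ∀ Q : ℕ, Q1 ≤ Q → ∀ f : ℕ → ℕ → ℂ, Sh (Q ^ 6) (Q ^ (6 * E)) f →
      Dich s κ1 c1 Q (Q ^ 6) (Q ^ (6 * E)) →
      ∫ x, EE (1 / (Q : ℝ) ^ 3) Q (Ioc (Q ^ (6 * E)) (Q ^ (3 * (b * E')))) (fun n => (f s n - f 0 n) / n) x ≤
      κ / (36 * E') * (((3 * (b * E') : ℕ) : ℝ) * Real.log Q) := by
    intro s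
    by_cases hs : s ≤ S
    · obtain ⟨Q1, hQ1⟩ := hBs s hs (3 * (b * E')) (by have := hBB s hs; omega)
      exact ⟨Q1, fun _ => hQ1⟩
    · exact ⟨0, fun h => absurd h hs⟩
  choose Qs hQs using hQs
  set Q1 := ∑ s ∈ range (S + 1), Qs s with hQ1d
  have hQQ : ∀ s ≤ S, Qs s ≤ Q1 := fun s hs =>
    single_le_sum (f := Qs) (fun _ _ => Nat.zero_le _) (mem_range.2 (by omega : s < S + 1))
  obtain ⟨Q2, hQ2⟩ := hen E' hE'0 b E (by omega) (by omega) (by omega)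
  refine ⟨E, b, b * E', by omega, by omega, hbD, by omega,
    Q1 + Q2 + 3, by omega, fun Q hQ => ⟨?_, fun s hsS f hf hD t hs1 hs2 => ?_⟩⟩
  · have hW1 := (abs_le.1 (hW Q b (b * E') (by omega) (by omega) hbD)).1
    have hbr : (0 : ℝ) < b := by exact_mod_cast (by omega : 0 < b)
    have hW2 : Real.log (((b * E' : ℕ) : ℝ) / (b : ℕ)) = Real.log E' := by
      congr 1; push_cast; field_simp
    rw [hW2] at hW1
    have hWE : 1 / κ + CW ≤ Real.log E' := by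
      rw [Real.le_log_iff_exp_le (by linarith)]
      exact hE2.trans (by exact_mod_cast hE'1)
    rw [WP_eq]
    linarith
  · have h1 := hQs s hsS Q (by have := hQQ s hsS; omega) (fun j => f (j + 1))
      (hf.shift.mono le_rfl (Nat.pow_le_pow_right (by omega) (by omega))) hD
    have h2 := hQ2 Q (by omega) (df s f 0) (df s f 1) (df_bd hf 0) (df_bd hf 1)
      (fun p n hp h3 h4 h5 => df_mul hf 0 p n hp h3 h4 h5)
    have e1 : 3 * b * E' = 3 * (b * E') := by ring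
    rw [e1] at h2
    have h3 : ∫ x, EE (1 / (Q : ℝ) ^ 3) Q (Ioc (Q ^ (6 * E)) (Q ^ (3 * (b * E')))) (fun n => df s f 1 n / n) x ≤
        κ / (36 * E') * (((3 * (b * E') : ℕ) : ℝ) * Real.log Q) := by
      have e2 : (fun n : ℕ => df s f 1 n / (n : ℂ)) =
          fun n : ℕ => (1 / 2 : ℂ) * ((f (s + 1) n - f (0 + 1) n) / n) := by
        ext n
        unfold df
        rw [show 1 + s = s + 1 by ring, zero_add]
        ring
      rw [e2]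
      simp only [EE_smul]
      rw [integral_const_mul]
      have e3 : ‖(1 / 2 : ℂ)‖ ^ 2 = 1 / 4 := by
        rw [norm_div, norm_one, Complex.norm_ofNat]; norm_num
      rw [e3]
      have h4 : 0 ≤ ∫ x, EE (1 / (Q : ℝ) ^ 3) Q (Ioc (Q ^ (6 * E)) (Q ^ (3 * (b * E'))))
          (fun n => (f (s + 1) n - f (0 + 1) n) / n) x := integral_nonneg (EE_nonneg _ _ _ _)
      linarith
    refine h2 h3 t (le_trans ?_ hs1) hs2
    apply mul_le_mul_of_nonneg_right _ (Real.log_natCast_nonneg Q)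
    exact_mod_cast (by omega : 6 * E + b * E' + 1 ≤ 2 * (b * E') - 1)

end Pool.Agent.TH823.OP
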