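import Pool.Agent.TH823.OP.Pair
import Pool.Agent.TH823.EL.Arcs

set_option autoImplicit false

/-!
# Pairs of functions: the minor arcs
-/

open Finset MeasureTheory
open scoped Real
open Pool.Agent.Helper112 Pool.Agent.W66 Pool.Agent.W66L

namespace Pool.Agent.TH823.OP

open Pool.Agent.TH823.PS Pool.Agent.TH823.EL

lemma conv_gcp {P : Finset ℕ} (hP : ∀ p ∈ P, 0 < p) (W : ℝ) (f g : ℕ → ℂ) {Y k : ℕ} (hk : k ∈ Icc 1 Y) :
    (W : ℂ) * f k = conv P (fun _ => 1) g k +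
      k * gcp W P (fun p => 1 / p) (Ioc 0 Y) (fun n => f n / n) (fun n => g n / n) k := by
  have h1 := conv_gco (P := ∅) (fun p hp => absurd hp (notMem_empty p)) W (fun _ => 1) f hk
  have h2 := conv_gco hP 0 (fun _ => 1) g hk
  unfold gcp
  have h3 : conv ∅ (fun _ => 1) f k = 0 := by unfold conv; simp
  rw [h3, zero_add] at h1
  rw [Complex.ofReal_zero, zero_mul] at h2
  rw [mul_add, ← h1]
  linear_combination h2

/-- **the minor arcs** -/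
theorem minorJ {f g : ℕ → ℂ} {Q D b X Y : ℕ} (hQ : 1 ≤ Q) (hb : 6 ≤ b) (hbD : b ≤ D)
    (hf : ∀ n, ‖f n‖ ≤ 1) (hg : ∀ n, ‖g n‖ ≤ 1)
    (hm : ∀ p n : ℕ, p.Prime → Q ^ 6 < p → p ≤ Q ^ D → ¬ p ∣ n → f (p * n) = g n)
    (hY : Q ^ (D + 1) ≤ Y) (hYX : Y ≤ X) (hlog : 1 ≤ Real.log Y)
    (hW : 0 < WP (PP (Q ^ b) (Q ^ D)))
    (K : Finset ℕ) (hK : K ⊆ range X)
    (hmin : ∀ k ∈ K, ¬ ∃ (q : ℕ) (c : ℤ), Pool.Agent.W93.LM.MajAt Y Q ((k : ℝ) / X) q c) :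
    ∑ k ∈ K, ‖∑ n ∈ Icc 1 Y, f n * ee (n * ((k : ℝ) / X))‖ ^ 2 ≤
      2 / WP (PP (Q ^ b) (Q ^ D)) ^ 2 * (K.card * (100 * Real.log Y ^ 3 * Y / √(Q : ℝ)) ^ 2 +
        X * ((48 * WP (PP (Q ^ b) (Q ^ D)) + 32) * Y)) := by
  set P := PP (Q ^ b) (Q ^ D) with hPd
  set W := WP P with hWd
  have hPpos : ∀ p ∈ P, 0 < p := fun p hp => (mem_PP.1 hp).2.pos
  have hQD : Q ^ D ≤ Y := (Nat.pow_le_pow_right (by omega) (by omega)).trans hY
  have hQD0 : 0 < Q ^ D := by positivity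
  have hY0 : 0 < Y := by omega
  have hX0 : 0 < X := by omega
  set u : ℕ → ℂ := gcp W P (fun p => 1 / p) (Ioc 0 Y) (fun n => f n / n) (fun n => g n / n) with hu
  have hgs := sum_of_sq (u := u) (M := 0) (N := Y) (X := Y) (y' := Q ^ b) (z' := Q ^ D)
    (fun k hk => gcp_sq hf hg (fun p n hp h3 h4 h5 => hm p n hp h3 h4 h5)
      (Nat.pow_le_pow_right (by omega) hb) le_rfl hQD0 hk) le_rfl hQD
  rw [← hPd, ← hWd] at hgs
  -- the identity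
  have hid : ∀ k : ℕ, (W : ℂ) * ∑ n ∈ Icc 1 Y, f n * ee (n * ((k : ℝ) / X)) =
      ∑ n ∈ Icc 1 Y, conv P (fun _ => 1) g n * ee (n * ((k : ℝ) / X)) +
      ∑ n ∈ Icc 1 Y, (n * u n) * ee (n * ((k : ℝ) / X)) := by
    intro k
    rw [mul_sum, ← sum_add_distrib]
    apply sum_congr rfl
    intro n hn
    rw [← mul_assoc, conv_gcp hPpos W f g hn, add_mul]
  have hpt : ∀ k ∈ K, ‖∑ n ∈ Icc 1 Y, f n * ee (n * ((k : ℝ) / X))‖ ^ 2 ≤
      2 / W ^ 2 * ((100 * Real.log Y ^ 3 * Y / √(Q : ℝ)) ^ 2 +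
        ‖∑ n ∈ Icc 1 Y, (n * u n) * ee (n * ((k : ℝ) / X))‖ ^ 2) := by
    intro k hk
    set A := ∑ n ∈ Icc 1 Y, f n * ee (n * ((k : ℝ) / X)) with hA
    set B := ∑ n ∈ Icc 1 Y, conv P (fun _ => 1) g n * ee (n * ((k : ℝ) / X)) with hB
    set U := ∑ n ∈ Icc 1 Y, (n * u n) * ee (n * ((k : ℝ) / X)) with hU
    have h1 : W * ‖A‖ ≤ ‖B‖ + ‖U‖ := by
      have h2 := hid k
      rw [← hA, ← hB, ← hU] at h2
      have h3 := norm_add_le B U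
      rw [← h2, norm_mul, Complex.norm_real, Real.norm_of_nonneg hW.le] at h3
      exact h3
    have hBb : ‖B‖ ≤ 100 * Real.log Y ^ 3 * Y / √(Q : ℝ) := by
      have hQQ : Q * Q ≤ Y := by
        have h2 : Q * Q = Q ^ 2 := by ring
        rw [h2]
        exact (Nat.pow_le_pow_right (by omega) (by omega)).trans hY
      obtain ⟨q, c, hq1, hqc, hor⟩ := Pool.Agent.W93.DG.diri Y Q hQ hQQ ((k : ℝ) / X)
      rcases hor with h2 | h2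
      · exact absurd ⟨q, c, hq1, hqc, h2.1, h2.2⟩ (hmin k hk)
      · refine bilin_minor hQ h2.1 h2.2.1 hqc h2.2.2 (Nat.le_self_pow (by omega) Q) ?_ hlog (fun _ => 1) g
          (fun _ => by rw [norm_one]) hg
        rw [← pow_succ]
        exact hY
    have h4 : (W * ‖A‖) ^ 2 ≤ 2 * ((100 * Real.log Y ^ 3 * Y / √(Q : ℝ)) ^ 2 + ‖U‖ ^ 2) := by
      have h5 : (W * ‖A‖) ^ 2 ≤ (‖B‖ + ‖U‖) ^ 2 := pow_le_pow_left₀ (by positivity) h1 2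
      have h6 : ‖B‖ ^ 2 ≤ (100 * Real.log Y ^ 3 * Y / √(Q : ℝ)) ^ 2 := pow_le_pow_left₀ (norm_nonneg _) hBb 2
      nlinarith [sq_nonneg (‖B‖ - ‖U‖)]
    rw [div_mul_eq_mul_div, le_div_iff₀ (by positivity)]
    rw [mul_pow] at h4
    linarith
  refine (sum_le_sum hpt).trans ?_
  rw [← mul_sum, sum_add_distrib, sum_const, nsmul_eq_mul]
  apply mul_le_mul_of_nonneg_left _ (by positivity)
  apply add_le_add le_rfl
  have h1 : ∑ k ∈ K, ‖∑ n ∈ Icc 1 Y, (n * u n) * ee (n * ((k : ℝ) / X))‖ ^ 2 ≤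
      ∑ k ∈ range X, ‖∑ n ∈ Icc 1 Y, (n * u n) * ee (n * ((k : ℝ) / X))‖ ^ 2 :=
    sum_le_sum_of_subset_of_nonneg hK fun _ _ _ => by positivity
  refine h1.trans ?_
  rw [parseval hX0 (A := Icc 1 Y) (Icc_subset_Icc_right hYX) (fun n => n * u n)]
  apply mul_le_mul_of_nonneg_left _ (by positivity)
  have h3 : ∑ m ∈ Icc 1 Y, ‖(m : ℂ) * u m‖ ^ 2 = ∑ m ∈ Icc 1 Y, ((m : ℝ) * ‖u m‖) ^ 2 := by
    apply sum_congr rfl
    intro m _
    rw [norm_mul, Complex.norm_natCast]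
  rw [h3]
  refine hgs.trans (le_of_eq ?_)
  push_cast
  ring

end Pool.Agent.TH823.OP
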