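import Mathlib
import Pool.Agent.Helper923.HMertens

set_option autoImplicit false

/-!
# The mean of `Ω` and the size of the truncation
-/

open Finset Filter

namespace Pool.Agent.TH823.OP

open ArithmeticFunction (cardFactors)

lemma om_factorial (M : ℕ) : ∑ m ∈ Icc 1 M, cardFactors m = cardFactors (Nat.factorial M) := by
  induction M with
  | zero => simp
  | succ M ih =>
    rw [sum_Icc_succ_top (by omega), ih, Nat.factorial_succ,
      ArithmeticFunction.cardFactors_mul (by omega) (Nat.factorial_ne_zero M), add_comm]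

lemma om_le (M : ℕ) : (cardFactors (Nat.factorial M) : ℝ) ≤ 2 * M * ∑ p ∈ (Icc 1 M).filter Nat.Prime, (1 : ℝ) / p := by
  rw [ArithmeticFunction.cardFactors_eq_sum_factorization, Finsupp.sum]
  push_cast
  have hsub : (Nat.factorial M).factorization.support ⊆ (Icc 1 M).filter Nat.Prime := by
    intro p hp
    rw [Nat.support_factorization, Nat.mem_primeFactors] at hp
    rw [mem_filter, mem_Icc]
    exact ⟨⟨hp.1.one_lt.le, (Nat.Prime.dvd_factorial hp.1).1 hp.2.1⟩, hp.1⟩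
  refine (sum_le_sum_of_subset_of_nonneg hsub fun _ _ _ => Nat.cast_nonneg _).trans ?_
  rw [mul_sum]
  apply sum_le_sum
  intro p hp
  rw [mem_filter] at hp
  have h1 := Nat.factorization_factorial_le_div_pred hp.2 M
  have hp2 : (2 : ℝ) ≤ p := by exact_mod_cast hp.2.two_le
  have h2 : (((Nat.factorial M).factorization p : ℕ) : ℝ) ≤ (M : ℝ) / (p - 1) := by
    refine (by exact_mod_cast h1 : (((Nat.factorial M).factorization p : ℕ) : ℝ) ≤ ((M / (p - 1) : ℕ) : ℝ)).trans ?_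
    refine Nat.cast_div_le.trans (le_of_eq ?_)
    rw [Nat.cast_sub hp.2.one_lt.le]
    norm_num
  refine h2.trans ?_
  rw [mul_one_div, div_le_div_iff₀ (by linarith) (by linarith)]
  have : (0 : ℝ) ≤ M := Nat.cast_nonneg M
  nlinarith

lemma prime_recip : ∃ C : ℝ, 0 < C ∧ ∀ M : ℕ, 3 ≤ M →
    ∑ p ∈ (Icc 1 M).filter Nat.Prime, (1 : ℝ) / p ≤ Real.log (Real.log M) + C := by
  obtain ⟨C, hC, hm⟩ := Pool.Agent.Helper923.HMertens.mertens_ratio
  have hl2 : (0 : ℝ) < Real.log 2 := Real.log_pos (by norm_num)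
  refine ⟨C / Real.log 2 + |Real.log (Real.log 2)| + 1, by positivity, fun M hM => ?_⟩
  have h1 := (abs_le.1 (hm 2 M le_rfl (by omega))).2
  have h2 : (Icc 1 M).filter Nat.Prime = insert 2 ((Ioc 2 M).filter Nat.Prime) := by
    ext p
    simp only [mem_filter, mem_Icc, mem_insert, mem_Ioc]
    constructor
    · rintro ⟨⟨h3, h4⟩, h5⟩
      rcases Nat.eq_or_lt_of_le h5.two_le with h6 | h6
      · exact Or.inl h6.symm
      · exact Or.inr ⟨⟨h6, h4⟩, h5⟩
    · rintro (rfl | ⟨⟨h3, h4⟩, h5⟩)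
      · exact ⟨⟨by omega, by omega⟩, Nat.prime_two⟩
      · exact ⟨⟨by omega, h4⟩, h5⟩
  rw [h2, sum_insert (by simp)]
  have hlM : (0 : ℝ) < Real.log M := Real.log_pos (by exact_mod_cast (by omega : 1 < M))
  push_cast at h1 ⊢
  rw [Real.log_div hlM.ne' hl2.ne'] at h1
  have := neg_abs_le (Real.log (Real.log 2))
  linarith

/-- few integers have many prime factors -/
lemma om_count : ∃ C : ℝ, 0 < C ∧ ∀ M J : ℕ, 3 ≤ M →
    (((Icc 1 M).filter fun m => J < cardFactors m).card : ℝ) * (J + 1) ≤ 2 * M * (Real.log (Real.log M) + C) := by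
  obtain ⟨C, hC, h⟩ := prime_recip
  refine ⟨C, hC, fun M J hM => ?_⟩
  have h1 : (((Icc 1 M).filter fun m => J < cardFactors m).card : ℝ) * (J + 1) ≤
      ∑ m ∈ Icc 1 M, (cardFactors m : ℝ) := by
    calc _ = ∑ m ∈ (Icc 1 M).filter (fun m => J < cardFactors m), ((J : ℝ) + 1) := by
          rw [sum_const, nsmul_eq_mul]
      _ ≤ ∑ m ∈ (Icc 1 M).filter (fun m => J < cardFactors m), (cardFactors m : ℝ) := by
          apply sum_le_sum
          intro m hm
          rw [mem_filter] at hm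
          exact_mod_cast hm.2
      _ ≤ _ := sum_le_sum_of_subset_of_nonneg (filter_subset _ _) fun _ _ _ => Nat.cast_nonneg _
  have h2 : ∑ m ∈ Icc 1 M, (cardFactors m : ℝ) = (cardFactors (Nat.factorial M) : ℝ) := by
    rw [← om_factorial]; push_cast; rfl
  rw [h2] at h1
  refine h1.trans ((om_le M).trans ?_)
  exact mul_le_mul_of_nonneg_left (h M hM) (by positivity)

/-- the size of the truncation -/
lemma J_exists (K δ : ℝ) (hK : 0 < K) (hδ : 0 < δ) (k : ℕ) : ∃ N0 : ℕ, ∀ N : ℕ, N0 ≤ N → ∃ J : ℕ,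
    1 ≤ Real.log (Real.log N) ∧ K * Real.log (Real.log N) ≤ J ∧
      ((k : ℝ) + 1) * 2 ^ ((J + 3) + (J + 1) ^ k) ≤ (N : ℝ) ^ δ := by
  set c : ℝ := δ / (3 * (K + k + 4) ^ (k + 1)) with hc
  have hc0 : 0 < c := by positivity
  have h1 := (Real.isLittleO_pow_exp_atTop (n := k + 1)).bound hc0
  obtain ⟨X0, hX0⟩ := eventually_atTop.1 h1
  obtain ⟨N0, hN0⟩ := exists_nat_ge (Real.exp (Real.exp (max X0 1)))
  refine ⟨N0, fun N hN => ?_⟩
  have hNr : Real.exp (Real.exp (max X0 1)) ≤ (N : ℝ) := hN0.trans (by exact_mod_cast hN)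
  have hN0' : (0 : ℝ) < N := lt_of_lt_of_le (Real.exp_pos _) hNr
  have h2 : Real.exp (max X0 1) ≤ Real.log N := (Real.le_log_iff_exp_le hN0').2 hNr
  have h3 : 0 < Real.log N := lt_of_lt_of_le (Real.exp_pos _) h2
  set x := Real.log (Real.log N) with hx
  have h4 : max X0 1 ≤ x := (Real.le_log_iff_exp_le h3).2 h2
  have hx1 : 1 ≤ x := (le_max_right _ _).trans h4
  have hx0 : X0 ≤ x := (le_max_left _ _).trans h4
  have h5 := hX0 x hx0
  have hexp : Real.exp x = Real.log N := Real.exp_log h3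
  rw [hexp, Real.norm_eq_abs, Real.norm_eq_abs, abs_of_nonneg (by positivity), abs_of_pos h3] at h5
  refine ⟨⌈K * x⌉₊, hx1, Nat.le_ceil _, ?_⟩
  set J := ⌈K * x⌉₊ with hJ
  have hJle : (J : ℝ) ≤ K * x + 1 := (Nat.ceil_lt_add_one (by positivity)).le
  have hbase : (J : ℝ) + 3 + k ≤ (K + k + 4) * x := by nlinarith [(Nat.cast_nonneg k : (0 : ℝ) ≤ k)]
  have hb1 : (1 : ℝ) ≤ J + 3 + k := by
    have : (0 : ℝ) ≤ J := Nat.cast_nonneg J
    have : (0 : ℝ) ≤ k := Nat.cast_nonneg k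
    linarith
  have hexpo : ((k + ((J + 3) + (J + 1) ^ k) : ℕ) : ℝ) ≤ δ * Real.log N := by
    have e1 : ((k + ((J + 3) + (J + 1) ^ k) : ℕ) : ℝ) ≤ 3 * ((J : ℝ) + 3 + k) ^ (k + 1) := by
      push_cast
      have a1 : (J : ℝ) + 3 + k ≤ ((J : ℝ) + 3 + k) ^ (k + 1) := le_self_pow₀ hb1 (by omega)
      have a2 : ((J : ℝ) + 1) ^ k ≤ ((J : ℝ) + 3 + k) ^ (k + 1) := by
        calc ((J : ℝ) + 1) ^ k ≤ ((J : ℝ) + 3 + k) ^ k := by
              apply pow_le_pow_left₀ (by positivity)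
              have : (0 : ℝ) ≤ k := Nat.cast_nonneg k
              linarith
          _ ≤ _ := pow_le_pow_right₀ hb1 (by omega)
      have a3 : 0 ≤ ((J : ℝ) + 3 + k) ^ (k + 1) := by positivity
      linarith
    have e2 : ((J : ℝ) + 3 + k) ^ (k + 1) ≤ ((K + k + 4) * x) ^ (k + 1) :=
      pow_le_pow_left₀ (by positivity) hbase _
    rw [mul_pow] at e2
    have e3 : (K + k + 4) ^ (k + 1) * x ^ (k + 1) ≤ (K + k + 4) ^ (k + 1) * (c * Real.log N) :=
      mul_le_mul_of_nonneg_left h5 (by positivity)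
    have e4 : 3 * ((K + k + 4) ^ (k + 1) * (c * Real.log N)) = δ * Real.log N := by
      rw [hc]
      field_simp
    linarith
  have e5 : ((k : ℝ) + 1) * 2 ^ ((J + 3) + (J + 1) ^ k) ≤ 2 ^ (k + ((J + 3) + (J + 1) ^ k)) := by
    rw [pow_add 2 k]
    apply mul_le_mul_of_nonneg_right _ (by positivity)
    have : k + 1 ≤ 2 ^ k := Nat.lt_two_pow_self
    exact_mod_cast this
  refine e5.trans ?_
  rw [Real.rpow_def_of_pos hN0', ← Real.rpow_natCast, Real.rpow_def_of_pos (by norm_num : (0 : ℝ) < 2)]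
  apply Real.exp_le_exp.2
  have hl2 : Real.log 2 ≤ 1 := by have := Real.log_two_lt_d9; linarith
  have hl20 : 0 ≤ Real.log 2 := Real.log_nonneg (by norm_num)
  calc Real.log 2 * ((k + ((J + 3) + (J + 1) ^ k) : ℕ) : ℝ) ≤ 1 * ((k + ((J + 3) + (J + 1) ^ k) : ℕ) : ℝ) :=
        mul_le_mul_of_nonneg_right hl2 (Nat.cast_nonneg _)
    _ ≤ δ * Real.log N := by rw [one_mul]; exact hexpo
    _ = Real.log N * δ := mul_comm _ _

end Pool.Agent.TH823.OP
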