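import Pool.Agent.TH823.OP.AllJ
import Pool.Agent.TH823.OP.OmSum

set_option autoImplicit false

/-!
# The joint law of the `Ω (n + h i)` is nearly invariant
-/

open Finset Polynomial

namespace Pool.Agent.TH823.OP

open Pool.Agent.TH823.PS Pool.Agent.TH823.EL
open Pool.Agent.H373R2.T7 (exI)
open ArithmeticFunction (cardFactors)

lemma card_close {α : Type*} [DecidableEq α] (s : Finset α) (p q b : α → Prop) [DecidablePred p] [DecidablePred q]
    [DecidablePred b] (h : ∀ a ∈ s, ¬ b a → (p a ↔ q a)) :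
    |((s.filter p).card : ℝ) - ((s.filter q).card : ℝ)| ≤ ((s.filter b).card : ℝ) := by
  have h1 : s.filter p ⊆ s.filter q ∪ s.filter b := by
    intro a ha
    rw [mem_filter] at ha
    rw [mem_union, mem_filter, mem_filter]
    by_cases hb : b a
    · exact Or.inr ⟨ha.1, hb⟩
    · exact Or.inl ⟨ha.1, (h a ha.1 hb).1 ha.2⟩
  have h2 : s.filter q ⊆ s.filter p ∪ s.filter b := by
    intro a ha
    rw [mem_filter] at ha
    rw [mem_union, mem_filter, mem_filter]
    by_cases hb : b a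
    · exact Or.inr ⟨ha.1, hb⟩
    · exact Or.inl ⟨ha.1, (h a ha.1 hb).2 ha.2⟩
  have h3 := (card_le_card h1).trans (card_union_le _ _)
  have h4 := (card_le_card h2).trans (card_union_le _ _)
  have h5 : ((s.filter p).card : ℝ) ≤ (s.filter q).card + (s.filter b).card := by exact_mod_cast h3
  have h6 : ((s.filter q).card : ℝ) ≤ (s.filter p).card + (s.filter b).card := by exact_mod_cast h4
  rw [abs_le]
  constructor <;> linarith

open Classical in
/-- the indicator function -/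
noncomputable def ind {α : Type*} (S : Set α) (a : α) : ℂ := if a ∈ S then 1 else 0

lemma ind_bd {α : Type*} (S : Set α) (a : α) : ‖ind S a‖ ≤ 1 := by
  unfold ind
  split_ifs
  · rw [norm_one]
  · rw [norm_zero]; exact zero_le_one

/-- the family of the shifts -/
noncomputable def fam (S : Set ℕ) (j n : ℕ) : ℂ := ind S (cardFactors n + j)

lemma fam_sh (S : Set ℕ) (y z : ℕ) : Sh y z (fam S) := by
  refine ⟨fun j n => ind_bd _ _, fun j p n hp _ _ hpn => ?_⟩
  have hn : n ≠ 0 := by rintro rfl; exact hpn (dvd_zero p)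
  unfold fam
  rw [ArithmeticFunction.cardFactors_mul hp.ne_zero hn, ArithmeticFunction.cardFactors_apply_prime hp]
  congr 1
  ring

open Classical in
/-- the number of the `n ≤ X` with `Ω (n + h i) ∈ S` and the vector of the others in `T` -/
noncomputable def cn {k : ℕ} (X : ℕ) (h : Fin (k + 1) → ℕ) (i : Fin (k + 1)) (S : Set ℕ) (T : Set (Fin k → ℕ)) : ℝ :=
  (((Icc 1 X).filter fun n => cardFactors (n + h i) ∈ S ∧
    (fun j => cardFactors (n + h (i.succAbove j))) ∈ T).card : ℝ)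

lemma cn_close {k : ℕ} (X : ℕ) (h : Fin (k + 1) → ℕ) (i : Fin (k + 1)) (S S' : Set ℕ) (T T' : Set (Fin k → ℕ))
    (b : ℕ → Prop) [DecidablePred b] (hyp : ∀ n ∈ Icc 1 X, ¬ b n →
      ((cardFactors (n + h i) ∈ S ∧ (fun j => cardFactors (n + h (i.succAbove j))) ∈ T) ↔
        (cardFactors (n + h i) ∈ S' ∧ (fun j => cardFactors (n + h (i.succAbove j))) ∈ T'))) :
    |cn X h i S T - cn X h i S' T'| ≤ (((Icc 1 X).filter b).card : ℝ) := by
  classical
  have := card_close (Icc 1 X) (fun n => cardFactors (n + h i) ∈ S ∧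
    (fun j => cardFactors (n + h (i.succAbove j))) ∈ T) (fun n => cardFactors (n + h i) ∈ S' ∧
    (fun j => cardFactors (n + h (i.succAbove j))) ∈ T') b hyp
  unfold cn
  convert this

lemma cn_sum {k : ℕ} (X : ℕ) (h : Fin (k + 1) → ℕ) (i : Fin (k + 1)) (S : Set ℕ) (T : Set (Fin k → ℕ)) :
    (cn X h i S T : ℂ) = ∑ n ∈ Icc 1 X, ind T (fun j => cardFactors (n + h (i.succAbove j))) *
      ind S (cardFactors (n + h i)) := by
  classical
  unfold cn ind
  rw [card_filter]
  push_cast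
  apply sum_congr rfl
  intro n _
  by_cases h1 : cardFactors (n + h i) ∈ S <;>
    by_cases h2 : (fun j => cardFactors (n + h (i.succAbove j))) ∈ T <;> simp [h1, h2]

lemma cn_diff {k : ℕ} (X s : ℕ) (h : Fin (k + 1) → ℕ) (i : Fin (k + 1)) (S : Set ℕ) (T : Set (Fin k → ℕ)) :
    ((cn X h i {l | l + s ∈ S} T - cn X h i S T : ℝ) : ℂ) =
      2 * ∑ n ∈ Icc 1 X, ind T (fun j => cardFactors (n + i.removeNth h j)) *
        exI (df s (fam S) 0) ((1 : ℕ) * n + (Polynomial.X : ℤ[X]).eval (h i : ℤ)) := by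
  rw [Complex.ofReal_sub, cn_sum, cn_sum, ← sum_sub_distrib, mul_sum]
  apply sum_congr rfl
  intro n hn
  rw [mem_Icc] at hn
  have e1 : ((1 : ℕ) * n + (Polynomial.X : ℤ[X]).eval (h i : ℤ)) = ((n + h i : ℕ) : ℤ) := by
    rw [eval_X]; push_cast; ring
  unfold exI
  rw [e1, if_pos (by exact_mod_cast (by omega : 1 ≤ n + h i)), Int.toNat_natCast]
  unfold df fam
  rw [zero_add, add_zero]
  have e2 : ind {l | l + s ∈ S} (cardFactors (n + h i)) = ind S (cardFactors (n + h i) + s) := rfl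
  have e3 : (fun j => cardFactors (n + i.removeNth h j)) = fun j => cardFactors (n + h (i.succAbove j)) := rfl
  rw [e2, e3]
  ring

lemma big_count {C : ℝ} (hom : ∀ M J : ℕ, 3 ≤ M →
    (((Icc 1 M).filter fun m => J < cardFactors m).card : ℝ) * (J + 1) ≤ 2 * M * (Real.log (Real.log M) + C))
    {A N J k : ℕ} (hC : 0 < C) (hA : A + 1 ≤ N) (hN : 3 ≤ N) (hll : 1 ≤ Real.log (Real.log N)) {ε : ℝ}
    (hJ : 16 * ((A : ℝ) + 1) * (2 + C) * (k + 1) / ε * Real.log (Real.log N) ≤ J) (hε : 0 < ε)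
    (h : Fin (k + 1) → ℕ) (hh : ∀ i, h i ≤ A * N) :
    (((Icc 1 N).filter fun n => ∃ j, J < cardFactors (n + h j)).card : ℝ) ≤ ε / 8 * N := by
  classical
  set M := (A + 1) * N with hM
  have hM3 : 3 ≤ M := hN.trans (Nat.le_mul_of_pos_left N (by omega))
  have h1 := hom M J hM3
  set R : ℝ := (((Icc 1 M).filter fun m => J < cardFactors m).card : ℝ) with hR
  have h2 : (((Icc 1 N).filter fun n => ∃ j, J < cardFactors (n + h j)).card : ℝ) ≤ (k + 1) * R := by
    have h3 : (Icc 1 N).filter (fun n => ∃ j, J < cardFactors (n + h j)) ⊆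
        (univ : Finset (Fin (k + 1))).biUnion fun j => (Icc 1 N).filter fun n => J < cardFactors (n + h j) := by
      intro n hn
      rw [mem_filter] at hn
      obtain ⟨hn1, j, hj⟩ := hn
      rw [mem_biUnion]
      exact ⟨j, mem_univ j, mem_filter.2 ⟨hn1, hj⟩⟩
    have h4 : ∀ j, ((Icc 1 N).filter fun n => J < cardFactors (n + h j)).card ≤
        ((Icc 1 M).filter fun m => J < cardFactors m).card := by
      intro j
      apply card_le_card_of_injOn (fun n => n + h j)
      · intro n hn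
        rw [mem_coe, mem_filter, mem_Icc] at hn
        rw [mem_coe, mem_filter, mem_Icc]
        have h5 := hh j
        simp only
        refine ⟨⟨by omega, ?_⟩, hn.2⟩
        rw [hM, add_mul, one_mul]
        omega
      · intro a _ b _ hab
        simpa using hab
    have h5 := (card_le_card h3).trans (card_biUnion_le.trans (sum_le_sum fun j _ => h4 j))
    rw [sum_const, card_univ, Fintype.card_fin, smul_eq_mul] at h5
    rw [hR]
    exact_mod_cast h5
  refine h2.trans ?_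
  have hNr : (0 : ℝ) < N := by exact_mod_cast (by omega : 0 < N)
  have hlogN : 0 < Real.log N := Real.log_pos (by exact_mod_cast (by omega : 1 < N))
  set x := Real.log (Real.log N) with hx
  have h3 : Real.log (Real.log M) ≤ x + 1 := by
    have h4 : (M : ℝ) ≤ (N : ℝ) ^ 2 := by
      have : M ≤ N ^ 2 := by rw [hM, sq]; exact Nat.mul_le_mul_right N hA
      exact_mod_cast this
    have hM0 : (0 : ℝ) < M := by exact_mod_cast (by omega : 0 < M)
    have h5 : Real.log M ≤ 2 * Real.log N := by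
      have := Real.log_le_log hM0 h4
      rwa [Real.log_pow] at this
    have hlM : 0 < Real.log M := Real.log_pos (by exact_mod_cast (by omega : 1 < M))
    have h6 := Real.log_le_log hlM h5
    rw [Real.log_mul two_ne_zero hlogN.ne'] at h6
    have : Real.log 2 ≤ 1 := by have := Real.log_two_lt_d9; linarith
    linarith
  have hMr : (M : ℝ) = (A + 1) * N := by rw [hM]; push_cast; ring
  have h4 : R * (J + 1) ≤ 2 * ((A + 1) * N) * ((2 + C) * x) := by
    rw [← hMr]
    refine h1.trans ?_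
    apply mul_le_mul_of_nonneg_left _ (by positivity)
    nlinarith
  rw [div_mul_eq_mul_div, div_le_iff₀ hε] at hJ
  have hJ0 : (0 : ℝ) < (J : ℝ) + 1 := by positivity
  have h5 : ((k : ℝ) + 1) * R * (J + 1) ≤ ε / 8 * N * (J + 1) := by
    have h6 := mul_le_mul_of_nonneg_left h4 (by positivity : (0 : ℝ) ≤ k + 1)
    have h7 := mul_le_mul_of_nonneg_right hJ hNr.le
    have h8 : 0 ≤ ε * N := by positivity
    nlinarith
  exact le_of_mul_le_mul_right h5 hJ0

open Classical in
/-- **near invariance of the joint law** -/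
theorem near_inv (E01 A k : ℕ) {ε : ℝ} (hε : 0 < ε) : ∃ E D : ℕ, E01 < E ∧ 6 * E + 2 ≤ D ∧ ∃ δ : ℝ, 0 < δ ∧ ∃ N₀ : ℕ,
    ∀ N : ℕ, N₀ ≤ N → ∀ x : Fin (k + 1) → ℕ, (∀ i, x i ≤ A * N ∧ (N : ℝ) ^ (1 - δ) ≤ x i) →
    ∀ s : ℕ, s = 1 ∧ NE 6 E ⌊(N : ℝ) ^ (1 / (2 * D : ℝ))⌋₊ ∨ s = 2 →
    (((Fintype.piFinset fun i => Icc 1 (x i)).filter fun h => ¬ ∀ i S T X, X ≤ N →
      |cn X h i {l | l + s ∈ S} T - cn X h i S T| ≤ ε * N).card : ℝ) ≤ (∏ i, (x i : ℝ)) * (N : ℝ) ^ (-δ) := by
  obtain ⟨C, hC, hom⟩ := om_count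
  obtain ⟨E, D, hE, hD, δ, hδ, Q0, hQ03, hQ0⟩ := allJ E01 (A + 1) 1 1 (P := fun _ : Unit => (X : ℤ[X]))
    (fun _ => by rw [natDegree_X]) (ε := ε / 8) (by positivity)
  set K : ℝ := 16 * ((A : ℝ) + 1) * (2 + C) * (k + 1) / ε with hK
  obtain ⟨N1, hN1⟩ := J_exists K (δ / 2) (by positivity) (by positivity) k
  obtain ⟨N2, hN2⟩ := scale_root D (by omega) Q0
  refine ⟨E, D, hE, hD, δ / 2, by positivity, N1 + N2 + A + 3, fun N hN x hx s hs => ?_⟩
  obtain ⟨J, hll, hJ, hcount⟩ := hN1 N (by omega)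
  obtain ⟨g1, g2, g3⟩ := hN2 N (by omega)
  set Q := ⌊(N : ℝ) ^ (1 / (2 * D : ℝ))⌋₊ with hQ
  have hNr : (1 : ℝ) ≤ N := by exact_mod_cast (by omega : 1 ≤ N)
  have hN0 : (0 : ℝ) < N := by linarith
  -- one pair of sets
  set bad : Fin (k + 1) → Set ℕ → Set (Fin k → ℕ) → (Fin (k + 1) → ℕ) → Prop := fun i S T h =>
    ∃ X ≤ N, ε / 8 * N < ‖∑ n ∈ Icc 1 X, ind T (fun j => cardFactors (n + i.removeNth h j)) *
        exI (df s (fam S) 0) ((1 : ℕ) * n + (Polynomial.X : ℤ[X]).eval (h i : ℤ))‖ with hbad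
  have hone : ∀ i S T, (((Fintype.piFinset fun i => Icc 1 (x i)).filter (bad i S T)).card : ℝ) ≤
      (∏ i, (x i : ℝ)) * (N : ℝ) ^ (-δ) := by
    intro i S T
    have h1 := (hQ0 Q (by omega) s hs (fam S) (fam_sh S _ _) N g2 g3).2 ()
    refine tuples_poly (P := fun _ => (Polynomial.X : ℤ[X])) (i₀ := i) h1 x ?_ le_rfl (by omega)
      (fun b n => ind T (fun j => cardFactors (n + b j))) (fun _ _ => ind_bd _ _) (bad i S T) ?_
    · rw [natDegree_X, pow_one, pow_one]
      refine ⟨(hx i).1.trans (Nat.mul_le_mul_right N (by omega)), le_trans ?_ (hx i).2⟩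
      exact Real.rpow_le_rpow_of_exponent_le hNr (by linarith)
    · intro m hm
      exact hm
  -- the union
  set US : Finset (Finset ℕ) := (range (J + 3)).powerset with hUS
  set UT : Finset (Finset (Fin k → ℕ)) := (Fintype.piFinset fun _ : Fin k => range (J + 1)).powerset with hUT
  have hsub : ((Fintype.piFinset fun i => Icc 1 (x i)).filter fun h => ¬ ∀ i S T X, X ≤ N →
      |cn X h i {l | l + s ∈ S} T - cn X h i S T| ≤ ε * N) ⊆
      ((univ : Finset (Fin (k + 1))) ×ˢ (US ×ˢ UT)).biUnion fun q =>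
        (Fintype.piFinset fun i => Icc 1 (x i)).filter (bad q.1 (q.2.1 : Set ℕ) (q.2.2 : Set (Fin k → ℕ))) := by
    intro h hh
    rw [mem_filter] at hh
    obtain ⟨hh1, hh2⟩ := hh
    push Not at hh2
    obtain ⟨i, S, T, X, hX, hbig⟩ := hh2
    rw [Fintype.mem_piFinset] at hh1
    have hhA : ∀ j, h j ≤ A * N := fun j => (mem_Icc.1 (hh1 j)).2.trans (hx j).1
    set S0 : Finset ℕ := (range (J + 3)).filter (· ∈ S) with hS0
    set T0 : Finset (Fin k → ℕ) := (Fintype.piFinset fun _ : Fin k => range (J + 1)).filter (· ∈ T) with hT0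
    rw [mem_biUnion]
    refine ⟨(i, S0, T0), ?_, ?_⟩
    · rw [mem_product, mem_product]
      exact ⟨mem_univ _, mem_powerset.2 (filter_subset _ _), mem_powerset.2 (filter_subset _ _)⟩
    rw [mem_filter, Fintype.mem_piFinset]
    refine ⟨hh1, ?_⟩
    by_contra hcon
    simp only [hbad] at hcon
    push Not at hcon
    have h1 := hcon X hX
    have hbc := big_count hom hC (by omega : A + 1 ≤ N) (by omega) hll hJ hε h hhA
    have h2 : |cn X h i {l | l + s ∈ (S0 : Set ℕ)} T0 - cn X h i S0 T0| ≤ ε / 4 * N := by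
      have h3 := congrArg norm (cn_diff X s h i (S0 : Set ℕ) (T0 : Set (Fin k → ℕ)))
      rw [Complex.norm_real, Real.norm_eq_abs, norm_mul, Complex.norm_ofNat] at h3
      rw [h3]
      linarith
    have hs2 : s ≤ 2 := by rcases hs with ⟨rfl, _⟩ | rfl <;> omega
    have hmono : (((Icc 1 X).filter fun n => ∃ j, J < cardFactors (n + h j)).card : ℝ) ≤ ε / 8 * N := by
      refine le_trans ?_ hbc
      apply Nat.cast_le.2
      exact card_le_card (filter_subset_filter _ (Icc_subset_Icc_right hX))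
    have hTT : ∀ n, (¬ ∃ j, J < cardFactors (n + h j)) →
        ((fun j => cardFactors (n + h (i.succAbove j))) ∈ (T0 : Set (Fin k → ℕ)) ↔
          (fun j => cardFactors (n + h (i.succAbove j))) ∈ T) := by
      intro n hn
      push Not at hn
      rw [mem_coe, hT0, mem_filter, Fintype.mem_piFinset]
      constructor
      · exact fun h => h.2
      · intro h4
        refine ⟨fun j => ?_, h4⟩
        rw [mem_range]
        have := hn (i.succAbove j)
        omega
    have h3 : |cn X h i {l | l + s ∈ S} T - cn X h i {l | l + s ∈ (S0 : Set ℕ)} T0| ≤ ε / 8 * N := by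
      refine le_trans (cn_close X h i _ _ _ _ (fun n => ∃ j, J < cardFactors (n + h j)) ?_) hmono
      intro n _ hn
      rw [hTT n hn]
      push Not at hn
      have h4 := hn i
      rw [Set.mem_ofPred_eq, Set.mem_ofPred_eq, mem_coe, hS0, mem_filter, mem_range]
      constructor
      · rintro ⟨h5, h6⟩
        exact ⟨⟨by omega, h5⟩, h6⟩
      · rintro ⟨h5, h6⟩
        exact ⟨h5.2, h6⟩
    have h4 : |cn X h i S T - cn X h i S0 T0| ≤ ε / 8 * N := by
      refine le_trans (cn_close X h i _ _ _ _ (fun n => ∃ j, J < cardFactors (n + h j)) ?_) hmono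
      intro n _ hn
      rw [hTT n hn]
      push Not at hn
      have h4 := hn i
      rw [mem_coe, hS0, mem_filter, mem_range]
      constructor
      · rintro ⟨h5, h6⟩
        exact ⟨⟨by omega, h5⟩, h6⟩
      · rintro ⟨h5, h6⟩
        exact ⟨h5.2, h6⟩
    have h5 : |cn X h i {l | l + s ∈ S} T - cn X h i S T| ≤ ε / 8 * N + ε / 4 * N + ε / 8 * N := by
      have e1 : cn X h i {l | l + s ∈ S} T - cn X h i S T =
          (cn X h i {l | l + s ∈ S} T - cn X h i {l | l + s ∈ (S0 : Set ℕ)} T0) +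
          (cn X h i {l | l + s ∈ (S0 : Set ℕ)} T0 - cn X h i S0 T0) - (cn X h i S T - cn X h i S0 T0) := by ring
      rw [e1]
      exact (abs_sub _ _).trans (add_le_add ((abs_add_le _ _).trans (add_le_add h3 h2)) h4)
    have h6 : 0 ≤ ε * N := by positivity
    linarith
  have hcard : ((((univ : Finset (Fin (k + 1))) ×ˢ (US ×ˢ UT)).card : ℕ) : ℝ) =
      ((k : ℝ) + 1) * 2 ^ ((J + 3) + (J + 1) ^ k) := by
    rw [card_product, card_product, card_univ, Fintype.card_fin, hUS, hUT, card_powerset, card_powerset,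
      card_range, Fintype.card_piFinset, prod_const, card_range, card_univ, Fintype.card_fin]
    push_cast
    rw [← pow_add]
  calc _ ≤ ((((univ : Finset (Fin (k + 1))) ×ˢ (US ×ˢ UT)).biUnion fun q =>
        (Fintype.piFinset fun i => Icc 1 (x i)).filter
          (bad q.1 (q.2.1 : Set ℕ) (q.2.2 : Set (Fin k → ℕ)))).card : ℝ) := by
        exact_mod_cast card_le_card hsub
    _ ≤ ∑ q ∈ (univ : Finset (Fin (k + 1))) ×ˢ (US ×ˢ UT), (((Fintype.piFinset fun i => Icc 1 (x i)).filter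
          (bad q.1 (q.2.1 : Set ℕ) (q.2.2 : Set (Fin k → ℕ)))).card : ℝ) := by
        exact_mod_cast card_biUnion_le
    _ ≤ ∑ q ∈ (univ : Finset (Fin (k + 1))) ×ˢ (US ×ˢ UT), (∏ i, (x i : ℝ)) * (N : ℝ) ^ (-δ) :=
        sum_le_sum fun q _ => hone _ _ _
    _ = ((k : ℝ) + 1) * 2 ^ ((J + 3) + (J + 1) ^ k) * ((∏ i, (x i : ℝ)) * (N : ℝ) ^ (-δ)) := by
        rw [sum_const, nsmul_eq_mul, hcard]
    _ ≤ (N : ℝ) ^ (δ / 2) * ((∏ i, (x i : ℝ)) * (N : ℝ) ^ (-δ)) :=
        mul_le_mul_of_nonneg_right hcount (by positivity)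
    _ = (∏ i, (x i : ℝ)) * (N : ℝ) ^ (-(δ / 2)) := by
        have : (N : ℝ) ^ (-(δ / 2)) = (N : ℝ) ^ (δ / 2) * (N : ℝ) ^ (-δ) := by
          rw [← Real.rpow_add hN0]; congr 1; ring
        rw [this]; ring

end Pool.Agent.TH823.OP
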