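import Pool.Agent.TH823.EL.Win
import Pool.Agent.TH823.EL.Engine

set_option autoImplicit false

/-!
# Pairs of functions: `f (p n) = g n` at the primes of a window
-/

open Finset MeasureTheory
open scoped Real FourierTransform
open Pool.Agent.Helper112

namespace Pool.Agent.TH823.OP

open Pool.Agent.TH823.PS Pool.Agent.TH823.EL Pool.Agent.W66 Pool.Agent.W66L

/-- the coefficients of the pair -/
noncomputable def gcp (W : ℝ) (P : Finset ℕ) (w : ℕ → ℂ) (S : Finset ℕ) (c c' : ℕ → ℂ) (k : ℕ) : ℂ :=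
  gco W ∅ w S c k + gco 0 P w S c' k

lemma gcp_def (W : ℝ) (P : Finset ℕ) (w : ℕ → ℂ) (S : Finset ℕ) (c c' : ℕ → ℂ) (k : ℕ) :
    gcp W P w S c c' k = (if k ∈ S then (W : ℂ) * c k else 0) -
      ∑ p ∈ P, if p ∣ k ∧ k / p ∈ S then w p * c' (k / p) else 0 := by
  unfold gcp gco
  rw [sum_empty, sub_zero]
  have : (if k ∈ S then ((0 : ℝ) : ℂ) * c' k else 0) = 0 := by split_ifs <;> simp
  rw [this, zero_sub, sub_eq_add_neg]

lemma gcp_bound {f g : ℕ → ℂ} {y z y' z' M N k : ℕ} (hf : ∀ n, ‖f n‖ ≤ 1) (hg : ∀ n, ‖g n‖ ≤ 1)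
    (hm : ∀ p n : ℕ, p.Prime → y < p → p ≤ z → ¬ p ∣ n → f (p * n) = g n)
    (hy : y ≤ y') (hz' : z' ≤ z) (hz : 0 < z') (hk : 1 ≤ k) :
    (k : ℝ) * ‖gcp (WP (PP y' z')) (PP y' z') (fun p => 1 / p) (Ioc M N) (fun n => f n / n) (fun n => g n / n) k‖ ≤
      2 * |om (PP y' z') k - WP (PP y' z')| + 2 * sq2 (PP y' z') k + 2 * WP (PP y' z') * bdr M z' N k := by
  set P := PP y' z' with hP
  set W := WP P with hW
  have hW0 : 0 ≤ W := WP_nonneg P
  have e1 : (k : ℂ) * gcp W P (fun p => 1 / p) (Ioc M N) (fun n => f n / n) (fun n => g n / n) k =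
      (if k ∈ Ioc M N then (W : ℂ) * f k else 0) -
        ∑ p ∈ P, if p ∣ k ∧ k / p ∈ Ioc M N then g (k / p) else 0 := by
    have hkc : (k : ℂ) ≠ 0 := by exact_mod_cast (by omega : k ≠ 0)
    rw [gcp_def, mul_sub, mul_sum]
    congr 1
    · split_ifs
      · field_simp
      · ring
    · apply sum_congr rfl
      intro p hp
      rw [hP, mem_PP] at hp
      split_ifs with h1
      · have hpc : (p : ℂ) ≠ 0 := by exact_mod_cast hp.2.ne_zero
        have hkp : ((k / p : ℕ) : ℂ) ≠ 0 := by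
          have := (mem_Ioc.1 h1.2).1
          exact_mod_cast (by omega : k / p ≠ 0)
        have h2 : (k : ℂ) = p * ((k / p : ℕ) : ℂ) := by
          exact_mod_cast (Nat.mul_div_cancel' h1.1).symm
        rw [h2]
        have h3 : p * (k / p) / p = k / p := by rw [Nat.mul_div_cancel_left _ hp.2.pos]
        field_simp
      · ring
  have e2 : (k : ℝ) * ‖gcp W P (fun p => 1 / p) (Ioc M N) (fun n => f n / n) (fun n => g n / n) k‖ =
      ‖(if k ∈ Ioc M N then (W : ℂ) * f k else 0) -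
        ∑ p ∈ P, if p ∣ k ∧ k / p ∈ Ioc M N then g (k / p) else 0‖ := by
    rw [← e1, norm_mul, Complex.norm_natCast]
  rw [e2]
  have hsq0 : 0 ≤ sq2 P k := by
    unfold sq2; exact sum_nonneg fun p _ => by split_ifs <;> norm_num
  have habs := abs_nonneg (om P k - W)
  by_cases hb : k ≤ M * z' ∨ N < k
  · have h1 : ‖(if k ∈ Ioc M N then (W : ℂ) * f k else 0)‖ ≤ W := by
      split_ifs
      · rw [norm_mul, Complex.norm_real, Real.norm_of_nonneg hW0]
        exact mul_le_of_le_one_right hW0 (hf k)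
      · rw [norm_zero]; exact hW0
    have h2 : ‖∑ p ∈ P, (if p ∣ k ∧ k / p ∈ Ioc M N then g (k / p) else 0)‖ ≤ om P k := by
      unfold om
      refine (norm_sum_le _ _).trans (sum_le_sum fun p _ => ?_)
      by_cases h3 : p ∣ k
      · rw [if_pos h3]
        split_ifs
        · exact hg _
        · rw [norm_zero]; exact zero_le_one
      · rw [if_neg h3, if_neg (fun h => h3 h.1), norm_zero]
    unfold bdr
    rw [if_pos hb]
    have h3 := norm_sub_le (if k ∈ Ioc M N then (W : ℂ) * f k else 0)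
      (∑ p ∈ P, (if p ∣ k ∧ k / p ∈ Ioc M N then g (k / p) else 0))
    have h4 := le_abs_self (om P k - W)
    linarith
  · have hb' := hb
    push Not at hb'
    unfold bdr
    rw [if_neg hb, mul_zero, add_zero]
    have hMk : M < k := lt_of_le_of_lt (Nat.le_mul_of_pos_right M hz) hb'.1
    rw [if_pos (mem_Ioc.2 ⟨hMk, hb'.2⟩)]
    have e3 : ∑ p ∈ P, (if p ∣ k ∧ k / p ∈ Ioc M N then g (k / p) else 0) =
        f k * (om P k : ℂ) - ∑ p ∈ P, (if p ∣ k then f k - g (k / p) else 0) := by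
      unfold om
      rw [Complex.ofReal_sum, mul_sum, ← sum_sub_distrib]
      apply sum_congr rfl
      intro p hp
      rw [hP, mem_PP] at hp
      by_cases h3 : p ∣ k
      · have h4 : k / p ∈ Ioc M N := by
          rw [mem_Ioc]
          refine ⟨?_, (Nat.div_le_self _ _).trans hb'.2⟩
          rw [Nat.lt_div_iff_mul_lt_of_dvd hp.2.ne_zero h3]
          exact lt_of_le_of_lt (Nat.mul_le_mul_left M hp.1.2) hb'.1
        rw [if_pos ⟨h3, h4⟩, if_pos h3, if_pos h3]
        push_cast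
        ring
      · rw [if_neg (fun h => h3 h.1), if_neg h3, if_neg h3]
        simp
    rw [e3]
    have e4 : (W : ℂ) * f k - (f k * (om P k : ℂ) - ∑ p ∈ P, (if p ∣ k then f k - g (k / p) else 0)) =
        -(f k * ((om P k - W : ℝ) : ℂ)) + ∑ p ∈ P, (if p ∣ k then f k - g (k / p) else 0) := by
      push_cast; ring
    rw [e4]
    refine (norm_add_le _ _).trans ?_
    have h5 : ‖-(f k * ((om P k - W : ℝ) : ℂ))‖ ≤ |om P k - W| := by
      rw [norm_neg, norm_mul, Complex.norm_real, Real.norm_eq_abs]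
      exact mul_le_of_le_one_left (abs_nonneg _) (hf k)
    have h6 : ‖∑ p ∈ P, (if p ∣ k then f k - g (k / p) else 0)‖ ≤ 2 * sq2 P k := by
      unfold sq2
      rw [mul_sum]
      refine (norm_sum_le _ _).trans (sum_le_sum fun p hp => ?_)
      rw [hP, mem_PP] at hp
      by_cases h7 : p ^ 2 ∣ k
      · rw [if_pos h7]
        have h9 : ‖(if p ∣ k then f k - g (k / p) else 0)‖ ≤ 2 := by
          split_ifs
          · refine (norm_sub_le _ _).trans ?_
            have := hf k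
            have := hg (k / p)
            linarith
          · rw [norm_zero]; norm_num
        linarith
      · rw [if_neg h7]
        split_ifs with h8
        · have h9 : ¬ p ∣ k / p := by
            intro h10
            apply h7
            rw [sq, ← Nat.mul_div_cancel' h8]
            exact Nat.mul_dvd_mul_left p h10
          have h10 := hm p (k / p) hp.2 (lt_of_le_of_lt hy hp.1.1) (hp.1.2.trans hz') h9
          rw [Nat.mul_div_cancel' h8] at h10
          rw [h10, sub_self, norm_zero]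
          norm_num
        · simp
    linarith

/-- the square of the coefficient -/
lemma gcp_sq {f g : ℕ → ℂ} {y z y' z' M N k : ℕ} (hf : ∀ n, ‖f n‖ ≤ 1) (hg : ∀ n, ‖g n‖ ≤ 1)
    (hm : ∀ p n : ℕ, p.Prime → y < p → p ≤ z → ¬ p ∣ n → f (p * n) = g n)
    (hy : y ≤ y') (hz' : z' ≤ z) (hz : 0 < z') (hk : 1 ≤ k) :
    ((k : ℝ) * ‖gcp (WP (PP y' z')) (PP y' z') (fun p => 1 / p) (Ioc M N) (fun n => f n / n) (fun n => g n / n) k‖) ^ 2 ≤
      16 * (om (PP y' z') k - WP (PP y' z')) ^ 2 + 16 * sq2 (PP y' z') k ^ 2 +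
        16 * WP (PP y' z') ^ 2 * bdr M z' N k := by
  have h1 := gcp_bound (M := M) (N := N) hf hg hm hy hz' hz hk
  have hW0 : 0 ≤ WP (PP y' z') := WP_nonneg _
  have hsq0 : 0 ≤ sq2 (PP y' z') k := by
    unfold sq2; exact sum_nonneg fun p _ => by split_ifs <;> norm_num
  have hb0 : 0 ≤ bdr M z' N k := by unfold bdr; split_ifs <;> norm_num
  have hb : bdr M z' N k ^ 2 = bdr M z' N k := by unfold bdr; split_ifs <;> norm_num
  refine (pow_le_pow_left₀ (by positivity) h1 2).trans ?_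
  have h2 := sq_bound |om (PP y' z') k - WP (PP y' z')| (sq2 (PP y' z') k) (WP (PP y' z') * bdr M z' N k) 0
  have h3 : |om (PP y' z') k - WP (PP y' z')| ^ 2 = (om (PP y' z') k - WP (PP y' z')) ^ 2 := sq_abs _
  rw [h3, mul_pow (WP (PP y' z')) (bdr M z' N k) 2, hb] at h2
  have e : 2 * |om (PP y' z') k - WP (PP y' z')| + 2 * sq2 (PP y' z') k + 2 * WP (PP y' z') * bdr M z' N k =
      2 * |om (PP y' z') k - WP (PP y' z')| + 2 * sq2 (PP y' z') k +
        2 * (WP (PP y' z') * bdr M z' N k) + 0 := by ring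
  rw [e]
  linarith

/-- **the energy after the multiplier** -/
lemma energy_of_sq {u : ℕ → ℂ} {y z M N : ℕ} (hu : ∀ k : ℕ, 1 ≤ k → ((k : ℝ) * ‖u k‖) ^ 2 ≤
      16 * (om (PP y z) k - WP (PP y z)) ^ 2 + 16 * sq2 (PP y z) k ^ 2 +
        16 * WP (PP y z) ^ 2 * bdr M z N k)
    (hy : 1 ≤ y) (hyz : y ≤ z) (hM : z ≤ M)
    (hMN : M ≤ N) :
    ∑ k ∈ Ioc M (N * z), (k : ℝ) *
      ‖u k‖ ^ 2 ≤
      48 * WP (PP y z) * (2 + Real.log (N * z : ℕ)) + 32 * (1 + Real.log (N * z : ℕ)) +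
        32 * WP (PP y z) ^ 2 * Real.log z := by
  have hPp : ∀ p ∈ PP y z, p.Prime := fun p hp => (mem_PP.1 hp).2
  have hterm' := hu
  set P := PP y z with hP
  set W := WP P with hW
  have hW0 : 0 ≤ W := WP_nonneg P
  have hz0 : 0 < z := by omega
  have hM0 : 1 ≤ M := by omega
  have hNz : M ≤ N * z := hMN.trans (Nat.le_mul_of_pos_right N hz0)
  have hcard : P.card ≤ M := by
    have h1 : P.card ≤ (Ioc y z).card := by
      rw [hP]; unfold PP; exact card_filter_le _ _
    rw [Nat.card_Ioc] at h1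
    omega
  have hterm : ∀ k ∈ Ioc M (N * z), (k : ℝ) *
      ‖u k‖ ^ 2 ≤
      16 * ((om P k - W) ^ 2 / k) + 16 * (sq2 P k ^ 2 / k) + 16 * W ^ 2 * (bdr M z N k / k) := by
    intro k hk
    rw [mem_Ioc] at hk
    have hk0 : (0 : ℝ) < k := by exact_mod_cast (by omega : 0 < k)
    have h1 := hterm' k (by omega)
    have h4 : (k : ℝ) * ‖u k‖ ^ 2 =
        ((k : ℝ) * ‖u k‖) ^ 2 / k := by
      field_simp
    rw [h4, div_le_iff₀ hk0]
    have h5 : (16 * ((om P k - W) ^ 2 / k) + 16 * (sq2 P k ^ 2 / k) + 16 * W ^ 2 * (bdr M z N k / k)) * k =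
        16 * (om P k - W) ^ 2 + 16 * sq2 P k ^ 2 + 16 * W ^ 2 * bdr M z N k := by
      field_simp
    rw [h5]
    exact h1
  refine (sum_le_sum hterm).trans ?_
  rw [sum_add_distrib, sum_add_distrib, ← mul_sum, ← mul_sum, ← mul_sum]
  have t1 := tk_log hPp hM0 hNz hcard
  have t2 : ∑ k ∈ Ioc M (N * z), sq2 P k ^ 2 / k ≤ 2 * (1 + Real.log (N * z : ℕ)) := by
    refine le_trans ?_ (sq2_log hPp (N * z))
    apply sum_le_sum_of_subset_of_nonneg
    · intro k hk
      rw [mem_Ioc] at hk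
      rw [mem_Icc]
      omega
    · intro _ _ _; positivity
  have t3 : ∑ k ∈ Ioc M (N * z), bdr M z N k / k ≤ 2 * Real.log z := by
    have h1 : ∑ k ∈ Ioc M (N * z), bdr M z N k / k ≤
        ∑ k ∈ Ioc M (M * z), (1 : ℝ) / k + ∑ k ∈ Ioc N (N * z), (1 : ℝ) / k := by
      have h2 : ∑ k ∈ Ioc M (N * z), bdr M z N k / (k : ℝ) =
          ∑ k ∈ (Ioc M (N * z)).filter (fun k => k ≤ M * z ∨ N < k), (1 : ℝ) / k := by
        rw [sum_filter]
        apply sum_congr rfl
        intro k _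
        unfold bdr
        split_ifs <;> simp
      rw [h2]
      have h3 : (Ioc M (N * z)).filter (fun k => k ≤ M * z ∨ N < k) ⊆
          Ioc M (M * z) ∪ Ioc N (N * z) := by
        intro k hk
        rw [mem_filter, mem_Ioc] at hk
        rw [mem_union, mem_Ioc, mem_Ioc]
        rcases hk.2 with h4 | h4
        · exact Or.inl ⟨hk.1.1, h4⟩
        · exact Or.inr ⟨h4, hk.1.2⟩
      refine (sum_le_sum_of_subset_of_nonneg h3 (fun _ _ _ => by positivity)).trans ?_
      rw [← sum_union_inter]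
      have : 0 ≤ ∑ k ∈ Ioc M (M * z) ∩ Ioc N (N * z), (1 : ℝ) / k := sum_nonneg fun _ _ => by positivity
      linarith
    have h2 := harm_le hM0 (Nat.le_mul_of_pos_right M hz0)
    have h3 := harm_le (a := N) (by omega) (Nat.le_mul_of_pos_right N hz0)
    have e1 : (((M * z : ℕ) : ℝ) / M) = z := by
      have : (M : ℝ) ≠ 0 := by exact_mod_cast (by omega : M ≠ 0)
      push_cast; field_simp
    have e2 : (((N * z : ℕ) : ℝ) / N) = z := by
      have : (N : ℝ) ≠ 0 := by exact_mod_cast (by omega : N ≠ 0)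
      push_cast; field_simp
    rw [e1] at h2
    rw [e2] at h3
    linarith
  have hW2 : 0 ≤ 16 * W ^ 2 := by positivity
  have s3 := mul_le_mul_of_nonneg_left t3 hW2
  linarith

/-- the sum of the squares of the coefficients, without logarithmic weights -/
lemma sum_of_sq {u : ℕ → ℂ} {y' z' M N X : ℕ} (hu : ∀ k : ℕ, 1 ≤ k → ((k : ℝ) * ‖u k‖) ^ 2 ≤
      16 * (om (PP y' z') k - WP (PP y' z')) ^ 2 + 16 * sq2 (PP y' z') k ^ 2 +
        16 * WP (PP y' z') ^ 2 * bdr M z' N k) (hXN : X ≤ N) (hzX : z' ≤ X) :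
    ∑ k ∈ Icc 1 X, ((k : ℝ) *
      ‖u k‖) ^ 2 ≤
      48 * WP (PP y' z') * X + 32 * X + 16 * WP (PP y' z') ^ 2 * (M * z') := by
  have hPp : ∀ p ∈ PP y' z', p.Prime := fun p hp => (mem_PP.1 hp).2
  have hterm := hu
  set P := PP y' z' with hP
  set W := WP P with hW
  have hW0 : 0 ≤ W := WP_nonneg P
  have hcard : P.card ≤ X := by
    have h1 : P.card ≤ (Ioc y' z').card := by
      rw [hP]; unfold PP; exact card_filter_le _ _
    rw [Nat.card_Ioc] at h1
    omega
  refine (sum_le_sum fun k hk => hterm k (mem_Icc.1 hk).1).trans ?_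
  rw [sum_add_distrib, sum_add_distrib, ← mul_sum, ← mul_sum, ← mul_sum]
  have t1 : ∑ k ∈ Icc 1 X, (om P k - W) ^ 2 ≤ 3 * W * X := by
    have h1 := Pool.Agent.Helper480.E25.turan P hPp X
    have h2 : (P.card : ℝ) ≤ X := by exact_mod_cast hcard
    have h3 := mul_le_mul_of_nonneg_left h2 (by positivity : 0 ≤ 2 * W)
    have h4 : ∑ k ∈ Icc 1 X, (om P k - W) ^ 2 ≤ X * W + 2 * W * P.card := h1
    linarith
  have t2 := sq2_sum hPp X
  have t3 : ∑ k ∈ Icc 1 X, bdr M z' N k ≤ M * z' := by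
    have h1 : ∀ k ∈ Icc 1 X, bdr M z' N k = if k ≤ M * z' then 1 else 0 := by
      intro k hk
      rw [mem_Icc] at hk
      unfold bdr
      by_cases h2 : k ≤ M * z'
      · rw [if_pos (Or.inl h2), if_pos h2]
      · rw [if_neg h2, if_neg (by push Not; omega)]
    rw [sum_congr rfl h1, ← sum_filter, sum_const, nsmul_eq_mul, mul_one]
    have h3 : (Icc 1 X).filter (fun k => k ≤ M * z') ⊆ Icc 1 (M * z') := by
      intro k hk; rw [mem_filter, mem_Icc] at hk; rw [mem_Icc]; omega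
    have h4 := card_le_card h3
    rw [Nat.card_Icc, Nat.add_sub_cancel] at h4
    exact_mod_cast h4
  have s3 := mul_le_mul_of_nonneg_left t3 (by positivity : 0 ≤ 16 * W ^ 2)
  linarith

end Pool.Agent.TH823.OP
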