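import Pool.Agent.TH823.OP.Pair

set_option autoImplicit false

/-!
# The iterated multiplier inequality
-/

open Finset MeasureTheory
open scoped Real FourierTransform
open Pool.Agent.Helper112

namespace Pool.Agent.TH823.OP

open Pool.Agent.TH823.PS Pool.Agent.TH823.EL Pool.Agent.W66 Pool.Agent.W66L

lemma iter_eq {β : ℂ} {u e : ℕ → ℂ} (hrec : ∀ i, u i = β * u (i + 1) + e i) (m i : ℕ) :
    u i = β ^ m * u (i + m) + ∑ l ∈ range m, β ^ l * e (i + l) := by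
  induction m with
  | zero => simp
  | succ m ih =>
    rw [ih, sum_range_succ, hrec (i + m)]
    rw [show i + (m + 1) = i + m + 1 by ring]
    ring

lemma iter_norm {β : ℂ} {u e : ℕ → ℂ} {ρ : ℝ} (hρ1 : ρ ≤ 1) (hβ : ‖β‖ ≤ ρ)
    (hrec : ∀ i, u i = β * u (i + 1) + e i) (m i : ℕ) :
    ‖u i‖ ≤ ρ ^ m * ‖u (i + m)‖ + ∑ l ∈ range m, ‖e (i + l)‖ := by
  have hρ0 : 0 ≤ ρ := (norm_nonneg _).trans hβ
  rw [iter_eq hrec m i]
  refine (norm_add_le _ _).trans ?_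
  apply add_le_add
  · rw [norm_mul, norm_pow]
    exact mul_le_mul_of_nonneg_right (pow_le_pow_left₀ (norm_nonneg _) hβ m) (norm_nonneg _)
  · refine (norm_sum_le _ _).trans (sum_le_sum fun l _ => ?_)
    rw [norm_mul, norm_pow]
    exact mul_le_of_le_one_left (norm_nonneg _) (pow_le_one₀ (norm_nonneg _) (hβ.trans hρ1))

/-- the pointwise inequality -/
lemma ptw {β : ℂ} {u e : ℕ → ℂ} {c1 κ1 : ℝ} (hc1 : 0 ≤ c1) (hc11 : c1 ≤ 1) (hβ1 : ‖β‖ ≤ 1)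
    (hrec : ∀ i, u i = β * u (i + 1) + e i) (s J : ℕ) (hor : ‖β‖ ≤ 1 - c1 ∨ ‖1 - β ^ s‖ ≤ κ1) :
    ‖u s - u 0‖ ^ 2 ≤ 4 * ((1 - c1) ^ J) ^ 2 * (‖u J‖ ^ 2 + ‖u (s + J)‖ ^ 2) + 2 * κ1 ^ 2 * ‖u s‖ ^ 2 +
      8 * (s + J : ℕ) * ∑ i ∈ range (s + J), ‖e i‖ ^ 2 := by
  set T := ∑ i ∈ range (s + J), ‖e i‖ with hT
  have hT0 : 0 ≤ T := sum_nonneg fun _ _ => norm_nonneg _
  have hTsq : T ^ 2 ≤ (s + J : ℕ) * ∑ i ∈ range (s + J), ‖e i‖ ^ 2 := by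
    have h1 := sum_mul_sq_le_sq_mul_sq (range (s + J)) (fun _ => (1 : ℝ)) (fun i => ‖e i‖)
    simp only [one_mul, one_pow, sum_const, card_range, nsmul_eq_mul, mul_one] at h1
    exact h1
  have hS0 : 0 ≤ ∑ i ∈ range (s + J), ‖e i‖ ^ 2 := sum_nonneg fun _ _ => by positivity
  have hsJ : (0 : ℝ) ≤ (s + J : ℕ) := Nat.cast_nonneg _
  rcases hor with h | h
  · have h1 := iter_norm (by linarith : 1 - c1 ≤ 1) h hrec J 0
    have h2 := iter_norm (by linarith : 1 - c1 ≤ 1) h hrec J s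
    have h3 : ∑ l ∈ range J, ‖e (0 + l)‖ ≤ T := by
      simp only [zero_add]
      apply sum_le_sum_of_subset_of_nonneg
      · intro l hl; rw [mem_range] at hl ⊢; omega
      · intro _ _ _; exact norm_nonneg _
    have h4 : ∑ l ∈ range J, ‖e (s + l)‖ ≤ T := by
      rw [hT, ← sum_image (f := fun i => ‖e i‖) (g := fun l => s + l) (by
        intro a _ b _ hab
        have h' : s + a = s + b := hab
        omega)]
      apply sum_le_sum_of_subset_of_nonneg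
      · intro l hl
        rw [mem_image] at hl
        obtain ⟨a, ha, rfl⟩ := hl
        rw [mem_range] at ha ⊢; omega
      · intro _ _ _; exact norm_nonneg _
    rw [zero_add] at h1
    set a := (1 - c1) ^ J * ‖u J‖ with ha
    set b := (1 - c1) ^ J * ‖u (s + J)‖ with hb
    have hc0 : 0 ≤ (1 - c1) ^ J := pow_nonneg (by linarith) _
    have ha0 : 0 ≤ a := by positivity
    have hb0 : 0 ≤ b := by positivity
    have h5 : ‖u s - u 0‖ ≤ a + b + 2 * T := by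
      have := norm_sub_le (u s) (u 0)
      linarith
    have h6 := pow_le_pow_left₀ (norm_nonneg _) h5 2
    have h7 : (a + b + 2 * T) ^ 2 ≤ 4 * a ^ 2 + 4 * b ^ 2 + 8 * T ^ 2 := by
      nlinarith [sq_nonneg (a - b), sq_nonneg (a - T), sq_nonneg (b - T)]
    have h8 : 4 * a ^ 2 + 4 * b ^ 2 = 4 * ((1 - c1) ^ J) ^ 2 * (‖u J‖ ^ 2 + ‖u (s + J)‖ ^ 2) := by
      rw [ha, hb]; ring
    have h9 : 0 ≤ 2 * κ1 ^ 2 * ‖u s‖ ^ 2 := by positivity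
    linarith
  · have h1 := iter_eq hrec s 0
    rw [zero_add] at h1
    have h2 : ‖u s - u 0‖ ≤ κ1 * ‖u s‖ + T := by
      have h3 : u s - u 0 = (1 - β ^ s) * u s - ∑ l ∈ range s, β ^ l * e (0 + l) := by
        rw [h1]; ring
      rw [h3]
      refine (norm_sub_le _ _).trans ?_
      apply add_le_add
      · rw [norm_mul]
        exact mul_le_mul_of_nonneg_right h (norm_nonneg _)
      · refine (norm_sum_le _ _).trans ?_
        simp only [zero_add]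
        have h4 : ∑ l ∈ range s, ‖β ^ l * e l‖ ≤ ∑ l ∈ range s, ‖e l‖ := by
          apply sum_le_sum
          intro l _
          rw [norm_mul, norm_pow]
          exact mul_le_of_le_one_left (norm_nonneg _) (pow_le_one₀ (norm_nonneg _) hβ1)
        refine h4.trans ?_
        apply sum_le_sum_of_subset_of_nonneg
        · intro l hl; rw [mem_range] at hl ⊢; omega
        · intro _ _ _; exact norm_nonneg _
    have h3 := pow_le_pow_left₀ (norm_nonneg _) h2 2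
    have h4 : (κ1 * ‖u s‖ + T) ^ 2 ≤ 2 * κ1 ^ 2 * ‖u s‖ ^ 2 + 2 * T ^ 2 := by
      nlinarith [sq_nonneg (κ1 * ‖u s‖ - T)]
    have h5 : 0 ≤ 4 * ((1 - c1) ^ J) ^ 2 * (‖u J‖ ^ 2 + ‖u (s + J)‖ ^ 2) := by positivity
    have h6 : 0 ≤ (s + J : ℕ) * ∑ i ∈ range (s + J), ‖e i‖ ^ 2 := by positivity
    linarith

/-- the sum over the primes in the multiplier -/
noncomputable def Bm (P : Finset ℕ) (w : ℕ → ℂ) (ξ : ℝ) : ℂ :=
  ∑ p ∈ P, w p * Complex.exp (-(((2 * π * ξ * Real.log p : ℝ) : ℂ) * Complex.I))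

lemma ggC_sub (h : ℝ) (K : Finset ℕ) (u v : ℕ → ℂ) (x : ℝ) :
    ggC h K (fun k => u k - v k) x = ggC h K u x - ggC h K v x := by
  unfold ggC
  rw [← sum_sub_distrib]
  exact sum_congr rfl fun _ _ => by ring

lemma four_add {f g : ℝ → ℂ} (hf : Integrable f) (hg : Integrable g) (ξ : ℝ) :
    𝓕 (fun x => f x + g x) ξ = 𝓕 f ξ + 𝓕 g ξ := by
  have hb : ∀ f : ℝ → ℂ, Integrable f → Integrable fun v : ℝ =>
      Complex.exp (-(((2 * π * ξ * v : ℝ) : ℂ) * Complex.I)) * f v := by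
    intro f hf
    refine hf.bdd_mul (c := 1) (by fun_prop) (Filter.Eventually.of_forall fun v => ?_)
    rw [show -(((2 * π * ξ * v : ℝ) : ℂ) * Complex.I) = ((-(2 * π * ξ * v) : ℝ) : ℂ) * Complex.I by push_cast; ring,
      Complex.norm_exp_ofReal_mul_I]
  rw [four_eq, four_eq, four_eq]
  simp only [mul_add]
  exact integral_add (hb f hf) (hb g hg)

lemma four_sub {h : ℝ} (hh : 0 < h) (S : Finset ℕ) (c c' : ℕ → ℂ) (ξ : ℝ) :
    𝓕 (ggC h S (fun n => c n - c' n)) ξ = 𝓕 (ggC h S c) ξ - 𝓕 (ggC h S c') ξ := by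
  have h1 : ∀ d : ℕ → ℂ, 𝓕 (ggC h S d) ξ =
      (∑ l ∈ S, d l * Complex.exp (-(((2 * π * ξ * Real.log l : ℝ) : ℂ) * Complex.I))) * 𝓕 (boxC h) ξ ^ 2 := by
    intro d
    rw [← four_triC hh, ← four_sum (triC_integrable hh)]
    rfl
  rw [h1, h1, h1, ← sub_mul, ← sum_sub_distrib]
  congr 1
  exact sum_congr rfl fun _ _ => by ring

lemma four_gcp {W : ℝ} {P : Finset ℕ} {w : ℕ → ℂ} {S K : Finset ℕ} (c c' : ℕ → ℂ)
    (hP : ∀ p ∈ P, 0 < p) (hS : ∀ s ∈ S, 0 < s) (hSK : ∀ s ∈ S, s ∈ K)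
    (hPK : ∀ s ∈ S, ∀ p ∈ P, p * s ∈ K) {h : ℝ} (hh : 0 < h) (ξ : ℝ) :
    𝓕 (ggC h K (gcp W P w S c c')) ξ = W * 𝓕 (ggC h S c) ξ - Bm P w ξ * 𝓕 (ggC h S c') ξ := by
  have h1 : ggC h K (gcp W P w S c c') = fun x => ggC h K (gco W ∅ w S c) x + ggC h K (gco 0 P w S c') x := by
    ext x
    exact ggC_add h K _ _ x
  rw [h1, four_add (ggC_integrable hh K _) (ggC_integrable hh K _),
    four_gco c (fun p hp => absurd hp (notMem_empty p)) hS hSK (fun _ _ p hp => absurd hp (notMem_empty p)) hh,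
    four_gco c' hP hS hSK hPK hh]
  unfold mult Bm
  simp
  ring

/-- Plancherel with real integrals -/
lemma real_planch {g : ℝ → ℂ} (hi : Integrable g) (h2 : MemLp g 2) :
    Integrable (fun ξ => ‖𝓕 g ξ‖ ^ 2) ∧ ∫ ξ, ‖𝓕 g ξ‖ ^ 2 = ∫ x, ‖g x‖ ^ 2 := by
  have p1 := Pool.Agent.Helper76.NormalHP.plancherel_lintegral _ hi h2
  rw [lint_sq h2] at p1
  have hc : Continuous fun ξ => ‖𝓕 g ξ‖ ^ 2 := ((four_cont hi).norm).pow 2
  have h0 : 0 ≤ ∫ x, ‖g x‖ ^ 2 := integral_nonneg fun x => by positivity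
  have e1 : ∫⁻ ξ, ENNReal.ofReal (‖𝓕 g ξ‖ ^ 2) = ENNReal.ofReal (∫ x, ‖g x‖ ^ 2) := by
    rw [← p1]
    apply lintegral_congr
    intro ξ
    rw [ENNReal.ofReal_pow (norm_nonneg _), ofReal_norm]
  refine ⟨⟨hc.aestronglyMeasurable, ?_⟩, ?_⟩
  · rw [hasFiniteIntegral_iff_ofReal (Filter.Eventually.of_forall fun ξ => by positivity), e1]
    exact ENNReal.ofReal_lt_top
  · rw [integral_eq_lintegral_of_nonneg_ae (Filter.Eventually.of_forall fun ξ => by positivity)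
      hc.aestronglyMeasurable, e1, ENNReal.toReal_ofReal h0]

/-- **the iterated multiplier inequality** -/
theorem planch_J {W : ℝ} (hW : 0 < W) {P : Finset ℕ} {w : ℕ → ℂ} {S K : Finset ℕ} (c : ℕ → ℕ → ℂ)
    (hP : ∀ p ∈ P, 0 < p) (hS : ∀ s ∈ S, 0 < s) (hSK : ∀ s ∈ S, s ∈ K)
    (hPK : ∀ s ∈ S, ∀ p ∈ P, p * s ∈ K) {h Ξ c1 κ1 : ℝ} (hh : 0 < h) (hΞ : 0 < Ξ)
    (hc1 : 0 ≤ c1) (hc11 : c1 ≤ 1) (s J : ℕ)
    (hB : ∀ ξ : ℝ, ‖Bm P w ξ‖ ≤ W)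
    (hm : ∀ ξ : ℝ, |ξ| ≤ Ξ → ‖Bm P w ξ / W‖ ≤ 1 - c1 ∨ ‖1 - (Bm P w ξ / W) ^ s‖ ≤ κ1) :
    ∫ x, ‖ggC h S (fun n => c s n - c 0 n) x‖ ^ 2 ≤
      4 * ((1 - c1) ^ J) ^ 2 * ((∫ x, ‖ggC h S (c J) x‖ ^ 2) + ∫ x, ‖ggC h S (c (s + J)) x‖ ^ 2) +
      2 * κ1 ^ 2 * (∫ x, ‖ggC h S (c s) x‖ ^ 2) +
      8 * (s + J : ℕ) / W ^ 2 * ∑ i ∈ range (s + J), (∫ x, ‖ggC h K (gcp W P w S (c i) (c (i + 1))) x‖ ^ 2) +
      (1 / (h * Ξ)) ^ 2 * (∫ x, ‖bbC h S (fun n => c s n - c 0 n) x‖ ^ 2) := by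
  have pg : ∀ (S : Finset ℕ) (d : ℕ → ℂ), Integrable (fun ξ => ‖𝓕 (ggC h S d) ξ‖ ^ 2) ∧
      ∫ ξ, ‖𝓕 (ggC h S d) ξ‖ ^ 2 = ∫ x, ‖ggC h S d x‖ ^ 2 := fun S d =>
    real_planch (ggC_integrable hh S d) (ggC_memLp hh S d)
  have pb := real_planch (bbC_integrable h S (fun n => c s n - c 0 n)) (bbC_memLp h S _)
  rw [← (pg S (fun n => c s n - c 0 n)).2, ← (pg S (c J)).2, ← (pg S (c (s + J))).2, ← (pg S (c s)).2, ← pb.2]
  have e1 : ∑ i ∈ range (s + J), (∫ x, ‖ggC h K (gcp W P w S (c i) (c (i + 1))) x‖ ^ 2) =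
      ∫ ξ, ∑ i ∈ range (s + J), ‖𝓕 (ggC h K (gcp W P w S (c i) (c (i + 1)))) ξ‖ ^ 2 := by
    rw [integral_finsetSum _ fun i _ => (pg K _).1]
    exact sum_congr rfl fun i _ => ((pg K _).2).symm
  rw [e1, ← integral_add (pg S _).1 (pg S _).1, ← integral_const_mul, ← integral_const_mul, ← integral_const_mul,
    ← integral_const_mul]
  have i1 : Integrable (fun ξ => 4 * ((1 - c1) ^ J) ^ 2 * (‖𝓕 (ggC h S (c J)) ξ‖ ^ 2 +
      ‖𝓕 (ggC h S (c (s + J))) ξ‖ ^ 2)) := ((pg S _).1.add (pg S _).1).const_mul _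
  have i2 : Integrable (fun ξ => 2 * κ1 ^ 2 * ‖𝓕 (ggC h S (c s)) ξ‖ ^ 2) := (pg S _).1.const_mul _
  have i3 : Integrable (fun ξ => 8 * (s + J : ℕ) / W ^ 2 *
      ∑ i ∈ range (s + J), ‖𝓕 (ggC h K (gcp W P w S (c i) (c (i + 1)))) ξ‖ ^ 2) :=
    (integrable_finsetSum _ fun i _ => (pg K _).1).const_mul _
  have i4 : Integrable (fun ξ => (1 / (h * Ξ)) ^ 2 * ‖𝓕 (bbC h S (fun n => c s n - c 0 n)) ξ‖ ^ 2) :=
    pb.1.const_mul _
  have i12 : Integrable (fun ξ => 4 * ((1 - c1) ^ J) ^ 2 * (‖𝓕 (ggC h S (c J)) ξ‖ ^ 2 +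
      ‖𝓕 (ggC h S (c (s + J))) ξ‖ ^ 2) + 2 * κ1 ^ 2 * ‖𝓕 (ggC h S (c s)) ξ‖ ^ 2) := i1.add i2
  have i123 : Integrable (fun ξ => 4 * ((1 - c1) ^ J) ^ 2 * (‖𝓕 (ggC h S (c J)) ξ‖ ^ 2 +
      ‖𝓕 (ggC h S (c (s + J))) ξ‖ ^ 2) + 2 * κ1 ^ 2 * ‖𝓕 (ggC h S (c s)) ξ‖ ^ 2 + 8 * (s + J : ℕ) / W ^ 2 *
      ∑ i ∈ range (s + J), ‖𝓕 (ggC h K (gcp W P w S (c i) (c (i + 1)))) ξ‖ ^ 2) := i12.add i3
  rw [← integral_add i1 i2, ← integral_add i12 i3, ← integral_add i123 i4]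
  refine integral_mono (pg S _).1 (i123.add i4) fun ξ => ?_
  have hn1 : 0 ≤ 4 * ((1 - c1) ^ J) ^ 2 * (‖𝓕 (ggC h S (c J)) ξ‖ ^ 2 + ‖𝓕 (ggC h S (c (s + J))) ξ‖ ^ 2) := by positivity
  have hn2 : 0 ≤ 2 * κ1 ^ 2 * ‖𝓕 (ggC h S (c s)) ξ‖ ^ 2 := by positivity
  have hn3 : 0 ≤ 8 * (s + J : ℕ) / W ^ 2 *
      ∑ i ∈ range (s + J), ‖𝓕 (ggC h K (gcp W P w S (c i) (c (i + 1)))) ξ‖ ^ 2 := by positivity
  have hn4 : 0 ≤ (1 / (h * Ξ)) ^ 2 * ‖𝓕 (bbC h S (fun n => c s n - c 0 n)) ξ‖ ^ 2 := by positivity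
  rcases le_or_gt |ξ| Ξ with h1 | h1
  · set u : ℕ → ℂ := fun i => 𝓕 (ggC h S (c i)) ξ with hu
    set e : ℕ → ℂ := fun i => 𝓕 (ggC h K (gcp W P w S (c i) (c (i + 1)))) ξ / W with he
    have hWc : (W : ℂ) ≠ 0 := by exact_mod_cast hW.ne'
    have hrec : ∀ i, u i = Bm P w ξ / W * u (i + 1) + e i := by
      intro i
      rw [he]
      simp only
      rw [four_gcp (c i) (c (i + 1)) hP hS hSK hPK hh ξ]
      rw [hu]
      simp only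
      field_simp
      ring
    have hβ1 : ‖Bm P w ξ / W‖ ≤ 1 := by
      rw [norm_div, Complex.norm_real, Real.norm_of_nonneg hW.le, div_le_one hW]
      exact hB ξ
    have hpt := ptw hc1 hc11 hβ1 hrec s J (hm ξ h1)
    have e2 : u s - u 0 = 𝓕 (ggC h S (fun n => c s n - c 0 n)) ξ := (four_sub hh S (c s) (c 0) ξ).symm
    have e3 : 8 * (s + J : ℕ) * ∑ i ∈ range (s + J), ‖e i‖ ^ 2 = 8 * (s + J : ℕ) / W ^ 2 *
      ∑ i ∈ range (s + J), ‖𝓕 (ggC h K (gcp W P w S (c i) (c (i + 1)))) ξ‖ ^ 2 := by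
      have e4 : ∀ i, ‖e i‖ ^ 2 = 1 / W ^ 2 * ‖𝓕 (ggC h K (gcp W P w S (c i) (c (i + 1)))) ξ‖ ^ 2 := by
        intro i
        rw [he]
        simp only
        rw [norm_div, Complex.norm_real, Real.norm_of_nonneg hW.le, div_pow]
        ring
      simp only [e4]
      rw [← mul_sum]
      ring
    rw [e2, e3] at hpt
    linarith
  · have h2 : ‖𝓕 (ggC h S (fun n => c s n - c 0 n)) ξ‖ ^ 2 ≤
        (1 / (h * Ξ)) ^ 2 * ‖𝓕 (bbC h S (fun n => c s n - c 0 n)) ξ‖ ^ 2 := by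
      rw [four_gg hh, norm_mul, mul_pow]
      apply mul_le_mul_of_nonneg_right _ (by positivity)
      have hξ0 : ξ ≠ 0 := by
        intro h0
        rw [h0, abs_zero] at h1
        linarith
      have h3 := norm_four_box_le hh hξ0
      apply pow_le_pow_left₀ (norm_nonneg _)
      refine h3.trans ?_
      apply one_div_le_one_div_of_le (by positivity)
      exact mul_le_mul_of_nonneg_left h1.le hh.le
    linarith

end Pool.Agent.TH823.OP
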