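import Pool.Agent.TH823.OP.EnergyJ

set_option autoImplicit false

/-!
# Shift families: the energy of the differences on a long range of scales
-/

open Finset MeasureTheory
open scoped Real
open Pool.Agent.Helper112

namespace Pool.Agent.TH823.OP

open Pool.Agent.TH823.PS Pool.Agent.TH823.EL Pool.Agent.W66 Pool.Agent.W66L

/-- a sequence of bounded functions with `f j (p n) = f (j + 1) n` for the primes `p` in `(y, z]` not dividing `n` -/
structure Sh (y z : ℕ) (f : ℕ → ℕ → ℂ) : Prop where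
  bd : ∀ j n, ‖f j n‖ ≤ 1
  mul : ∀ j p n : ℕ, p.Prime → y < p → p ≤ z → ¬ p ∣ n → f j (p * n) = f (j + 1) n

lemma Sh.mono {y z y' z' : ℕ} {f : ℕ → ℕ → ℂ} (h : Sh y z f) (hy : y ≤ y') (hz : z' ≤ z) : Sh y' z' f :=
  ⟨h.bd, fun j p n hp h1 h2 h3 => h.mul j p n hp (lt_of_le_of_lt hy h1) (h2.trans hz) h3⟩

/-- the dichotomy for the sums of the characters over the primes of the window -/
def Dich (s : ℕ) (κ1 c1 : ℝ) (Q y z : ℕ) : Prop :=
  ∀ (q : ℕ) [NeZero q], q ≤ Q → ∀ χ : DirichletCharacter ℂ q, ∀ t : ℝ, |t| ≤ (Q : ℝ) ^ 4 →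
    ‖(∑ p ∈ PP y z, ct χ t p / p) / WP (PP y z)‖ ≤ 1 - c1 ∨
      ‖1 - ((∑ p ∈ PP y z, ct χ t p / p) / WP (PP y z)) ^ s‖ ≤ κ1

lemma Bm_ct {q : ℕ} (χ : DirichletCharacter ℂ q) (y z : ℕ) (ξ : ℝ) :
    Bm (PP y z) (fun p => χ (p : ZMod q) / p) ξ = ∑ p ∈ PP y z, ct χ (2 * π * ξ) p / p := by
  unfold Bm ct
  apply sum_congr rfl
  intro p _
  ring

/-- trivial bound for the energy -/
lemma EE_triv {Q B E : ℕ} (hQ : 3 ≤ Q) (hE : 1 ≤ E) (hEB : 6 * E ≤ B) {K : ℝ} {f : ℕ → ℂ} (hf : ∀ n, ‖f n‖ ≤ K) :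
    ∑ n ∈ Ioc (Q ^ (6 * E)) (Q ^ B), 6 * (15 * (n : ℝ) + (1 + (Q : ℝ) ^ 2) / (1 / (Q : ℝ) ^ 3)) * ‖f n / (n : ℂ)‖ ^ 2 ≤
      102 * K ^ 2 * (B * Real.log Q) := by
  have hQr : (3 : ℝ) ≤ Q := by exact_mod_cast hQ
  have hL := log_ge_one hQ
  set L := Real.log Q with hLdef
  set h : ℝ := 1 / (Q : ℝ) ^ 3 with hh
  have hzN : Q ^ (6 * E) ≤ Q ^ B := Nat.pow_le_pow_right (by omega) hEB
  have hcoef : ∀ n : ℕ, Q ^ (6 * E) < n → 6 * (15 * (n : ℝ) + (1 + (Q : ℝ) ^ 2) / h) ≤ 102 * n := by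
    intro n hn
    have h2 : (1 + (Q : ℝ) ^ 2) / h ≤ 2 * n := by
      rw [hh, div_div_eq_mul_div, div_one]
      have h3 : (Q : ℝ) ^ 6 ≤ n := by
        have : Q ^ 6 ≤ n := (Nat.pow_le_pow_right (by omega) (by omega)).trans hn.le
        exact_mod_cast this
      have h4 : (1 : ℝ) ≤ (Q : ℝ) ^ 2 := one_le_pow₀ (by linarith)
      have h5 : (0 : ℝ) < (Q : ℝ) ^ 3 := by positivity
      have h6 : (1 + (Q : ℝ) ^ 2) * (Q : ℝ) ^ 3 ≤ 2 * (Q : ℝ) ^ 5 := by
        have h8 := mul_le_mul_of_nonneg_right h4 h5.le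
        linarith
      have h7 : (Q : ℝ) ^ 5 ≤ (Q : ℝ) ^ 6 := pow_le_pow_right₀ (by linarith) (by norm_num)
      linarith
    linarith
  have h2 : ∑ n ∈ Ioc (Q ^ (6 * E)) (Q ^ B), (1 : ℝ) / n ≤ B * L := by
    refine (harm_le (Nat.one_le_pow _ _ (by omega)) hzN).trans ?_
    have h3 : Real.log (((Q ^ B : ℕ) : ℝ) / ((Q ^ (6 * E) : ℕ) : ℝ)) ≤ Real.log ((Q ^ B : ℕ) : ℝ) := by
      apply Real.log_le_log
      · positivity
      · apply div_le_self (by positivity)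
        exact_mod_cast Nat.one_le_pow _ _ (by omega)
    refine h3.trans (le_of_eq ?_)
    push_cast; rw [Real.log_pow]
  have hK2 : 0 ≤ K ^ 2 := by positivity
  refine le_trans ?_ (mul_le_mul_of_nonneg_left h2 (by positivity : 0 ≤ 102 * K ^ 2))
  rw [mul_sum]
  apply sum_le_sum
  intro n hn
  rw [mem_Ioc] at hn
  have hn0 : (0 : ℝ) < n := by exact_mod_cast (by omega : 0 < n)
  have h3 : ‖f n / (n : ℂ)‖ ^ 2 ≤ K ^ 2 / (n : ℝ) ^ 2 := by
    rw [norm_div, Complex.norm_natCast, div_pow]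
    apply div_le_div_of_nonneg_right _ (by positivity)
    exact pow_le_pow_left₀ (norm_nonneg _) (hf n) 2
  calc 6 * (15 * (n : ℝ) + (1 + (Q : ℝ) ^ 2) / h) * ‖f n / (n : ℂ)‖ ^ 2
      ≤ 102 * n * (K ^ 2 / (n : ℝ) ^ 2) :=
        mul_le_mul (hcoef n hn.1) h3 (by positivity) (by positivity)
    _ = 102 * K ^ 2 * (1 / n) := by field_simp

theorem energy_smallJ (η : ℝ) (hη : 0 < η) : ∃ κ1 : ℝ, 0 < κ1 ∧ ∀ (s : ℕ) (c1 : ℝ), 0 < c1 → c1 ≤ 1 →
    ∃ E1 : ℕ, ∀ E : ℕ, E1 ≤ E → ∃ B1 : ℕ, ∀ B : ℕ, B1 ≤ B →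
    ∃ Q1 : ℕ, ∀ Q : ℕ, Q1 ≤ Q → ∀ f : ℕ → ℕ → ℂ, Sh (Q ^ 6) (Q ^ (6 * E)) f →
      Dich s κ1 c1 Q (Q ^ 6) (Q ^ (6 * E)) →
    ∫ x, EE (1 / (Q : ℝ) ^ 3) Q (Ioc (Q ^ (6 * E)) (Q ^ B)) (fun n => (f s n - f 0 n) / n) x ≤
      η * (B * Real.log Q) := by
  refine ⟨Real.sqrt (η / 1000), Real.sqrt_pos.2 (by positivity), fun s c1 hc1 hc11 => ?_⟩
  set κ1 := Real.sqrt (η / 1000) with hκ1
  have hκ1s : κ1 ^ 2 = η / 1000 := Real.sq_sqrt (by positivity)
  obtain ⟨J, hJ⟩ : ∃ J : ℕ, (1 - c1) ^ J < min 1 (η / 4000) :=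
    exists_pow_lt_of_lt_one (lt_min one_pos (by positivity)) (by linarith)
  have hρ0 : 0 ≤ (1 - c1) ^ J := pow_nonneg (by linarith) _
  have hρJ : ((1 - c1) ^ J) ^ 2 ≤ η / 4000 := by
    have h1 := hJ.le.trans (min_le_left _ _)
    have h2 := hJ.le.trans (min_le_right _ _)
    nlinarith
  obtain ⟨CW, hCW, hW⟩ := WW_est
  set M : ℝ := (s + J : ℕ) + 1 with hM
  have hM1 : 1 ≤ M := by
    have : (0 : ℝ) ≤ (s + J : ℕ) := Nat.cast_nonneg _
    linarith
  set θ : ℝ := η / (10 ^ 7 * M ^ 2) with hθ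
  have hθ0 : 0 < θ := by positivity
  -- the size of `W`
  set W0 : ℝ := 1 + 1 / θ with hW0
  have hW0p : 0 < W0 := by positivity
  obtain ⟨E1, hE1⟩ := exists_nat_ge (Real.exp (W0 + CW))
  refine ⟨E1 + 1, fun E hE => ?_⟩
  obtain ⟨B1, hB1⟩ := exists_nat_ge ((6 * E + 1 : ℝ) * (1 / θ + 1))
  refine ⟨B1 + 6 * E + 1, fun B hB => ?_⟩
  set K1 : ℝ := Real.sqrt (2000 / η) with hK1
  have hK1p : 0 < K1 := Real.sqrt_pos.2 (by positivity)
  have hK1s : K1 ^ 2 = 2000 / η := Real.sq_sqrt (by positivity)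
  obtain ⟨Q1, hQ1⟩ := exists_nat_ge (2 * π * K1)
  refine ⟨Q1 + 3, fun Q hQ f hf hD => ?_⟩
  have hQ3 : 3 ≤ Q := by omega
  have hQr : (3 : ℝ) ≤ Q := by exact_mod_cast hQ3
  have hQ1r : 2 * π * K1 ≤ (Q : ℝ) := by
    refine hQ1.trans ?_
    exact_mod_cast (by omega : Q1 ≤ Q)
  have hL := log_ge_one hQ3
  set L := Real.log Q with hLdef
  have hE0 : 1 ≤ E := by omega
  have hEr : (1 : ℝ) ≤ E := by exact_mod_cast hE0
  have hBr : (1 : ℝ) ≤ B := by exact_mod_cast (by omega : 1 ≤ B)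
  set y := Q ^ 6 with hy
  set z := Q ^ (6 * E) with hz
  set N := Q ^ B with hN
  have hyz : y ≤ z := Nat.pow_le_pow_right (by omega) (by omega)
  have hzN : z ≤ N := Nat.pow_le_pow_right (by omega) (by omega)
  have hQy : Q ≤ y := Nat.le_self_pow (by omega) Q
  have hW1 := (abs_le.1 (hW Q 6 (6 * E) hQ3 (by omega) (by omega))).1
  have hW2 : Real.log (((6 * E : ℕ) : ℝ) / (6 : ℕ)) = Real.log E := by
    congr 1; push_cast; field_simp
  rw [hW2] at hW1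
  have hWE : W0 + CW ≤ Real.log E := by
    rw [Real.le_log_iff_exp_le (by linarith)]
    refine hE1.trans ?_
    exact_mod_cast (by omega : E1 ≤ E)
  have hWW : W0 ≤ WP (PP y z) := by
    rw [WP_eq]
    linarith
  set W := WP (PP y z) with hWdef
  have hWp : 0 < W := by linarith
  have hQ0 : (0 : ℝ) < Q := by positivity
  set h : ℝ := 1 / (Q : ℝ) ^ 3 with hh
  have h0 : 0 < h := by positivity
  have h1 : h ≤ 1 := by
    rw [hh, div_le_one (by positivity)]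
    exact one_le_pow₀ (by linarith)
  have hΞ : 0 < K1 * (Q : ℝ) ^ 3 := by positivity
  have hm : ∀ (q : ℕ) [NeZero q], q ≤ Q → ∀ χ : DirichletCharacter ℂ q, ∀ ξ : ℝ,
      |ξ| ≤ K1 * (Q : ℝ) ^ 3 →
      ‖Bm (PP y z) (fun p => χ (p : ZMod q) / p) ξ / W‖ ≤ 1 - c1 ∨
      ‖1 - (Bm (PP y z) (fun p => χ (p : ZMod q) / p) ξ / W) ^ s‖ ≤ κ1 := by
    intro q _ hq χ ξ hξ
    rw [Bm_ct]
    exact hD q hq χ (2 * π * ξ) (by
      rw [abs_mul, abs_of_pos (by positivity : 0 < 2 * π)]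
      calc 2 * π * |ξ| ≤ 2 * π * (K1 * (Q : ℝ) ^ 3) := mul_le_mul_of_nonneg_left hξ (by positivity)
        _ = 2 * π * K1 * (Q : ℝ) ^ 3 := by ring
        _ ≤ Q * (Q : ℝ) ^ 3 := mul_le_mul_of_nonneg_right hQ1r (by positivity)
        _ = (Q : ℝ) ^ 4 := by ring)
  have key := energy_J (F := Q) (P := PP y z) (S := Ioc z N) (K := Ioc z (N * z)) hWp
    (fun i n => f i n / n) (fun p hp => ⟨(mem_PP.1 hp).2, lt_of_le_of_lt hQy (mem_PP.1 hp).1.1⟩)
    (fun s hs => by rw [mem_Ioc] at hs; omega)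
    (fun s hs => by
      rw [mem_Ioc] at hs ⊢
      exact ⟨hs.1, hs.2.trans (Nat.le_mul_of_pos_right N (by positivity))⟩)
    (fun s hs => by rw [mem_Ioc] at hs; omega)
    (fun s hs p hp => by
      rw [mem_Ioc] at hs ⊢
      rw [mem_PP] at hp
      exact ⟨lt_of_lt_of_le hs.1 (Nat.le_mul_of_pos_left s hp.2.pos),
        (Nat.mul_le_mul hp.1.2 hs.2).trans (le_of_eq (mul_comm _ _))⟩)
    h0 h1 hΞ hc1.le hc11 s J hm
  have hS0 : ∀ n ∈ Ioc z N, 0 < n := fun n hn => by rw [mem_Ioc] at hn; omega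
  have etriv : ∀ i, ∫ x, EE h Q (Ioc z N) (fun n => f i n / n) x ≤ 102 * (B * L) := by
    intro i
    rw [EE_integral h0]
    refine (ls_gg Q (Ioc z N) hS0 _ h0 h1).trans ?_
    have := EE_triv (B := B) (E := E) hQ3 hE0 (by omega) (hf.bd i)
    rw [one_pow, mul_one] at this
    exact this
  have t4 : ∑ n ∈ Ioc z N, 6 * (15 * (n : ℝ) + (1 + (Q : ℝ) ^ 2) / h) * ‖f s n / (n : ℂ) - f 0 n / (n : ℂ)‖ ^ 2 ≤
      408 * (B * L) := by
    simp only [← sub_div]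
    have := EE_triv (B := B) (E := E) hQ3 hE0 (by omega) (f := fun n => f s n - f 0 n) (K := 2) (fun n => by
      refine (norm_sub_le _ _).trans ?_
      have := hf.bd s n
      have := hf.bd 0 n
      linarith)
    refine this.trans (le_of_eq ?_)
    ring
  have hcoef : ∀ n : ℕ, z < n → 6 * (15 * (n : ℝ) + (1 + (Q : ℝ) ^ 2) / h) ≤ 102 * n := by
    intro n hn
    have h2 : (1 + (Q : ℝ) ^ 2) / h ≤ 2 * n := by
      rw [hh, div_div_eq_mul_div, div_one]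
      have h3 : (Q : ℝ) ^ 6 ≤ n := by
        have : Q ^ 6 ≤ n := hyz.trans hn.le
        exact_mod_cast this
      have h4 : (1 : ℝ) ≤ (Q : ℝ) ^ 2 := one_le_pow₀ (by linarith)
      have h5 : (0 : ℝ) < (Q : ℝ) ^ 3 := by positivity
      have h6 : (1 + (Q : ℝ) ^ 2) * (Q : ℝ) ^ 3 ≤ 2 * (Q : ℝ) ^ 5 := by
        have h8 := mul_le_mul_of_nonneg_right h4 h5.le
        linarith
      have h7 : (Q : ℝ) ^ 5 ≤ (Q : ℝ) ^ 6 := pow_le_pow_right₀ (by linarith) (by norm_num)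
      linarith
    linarith
  -- the energy after the multiplier
  have t3 : ∀ i, ∑ n ∈ Ioc z (N * z), 6 * (15 * (n : ℝ) + (1 + (Q : ℝ) ^ 2) / h) *
      ‖gcp W (PP y z) (fun p => 1 / p) (Ioc z N) (fun n => f i n / n) (fun n => f (i + 1) n / n) n‖ ^ 2 ≤
      102 * (48 * W * (2 + Real.log (N * z : ℕ)) + 32 * (1 + Real.log (N * z : ℕ)) +
        32 * W ^ 2 * Real.log z) := by
    intro i
    have h2 := energy_of_sq (z := z) (M := z) (N := N) (u := gcp W (PP y z) (fun p => 1 / p) (Ioc z N)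
      (fun n => f i n / n) (fun n => f (i + 1) n / n)) (fun k hk => gcp_sq (hf.bd i) (hf.bd (i + 1))
        (fun p n hp h3 h4 h5 => hf.mul i p n hp h3 h4 h5) le_rfl le_rfl (by positivity) hk)
      (Nat.one_le_pow _ _ (by omega)) hyz le_rfl hzN
    refine le_trans ?_ (mul_le_mul_of_nonneg_left h2 (by norm_num))
    rw [mul_sum]
    apply sum_le_sum
    intro n hn
    rw [mem_Ioc] at hn
    rw [← mul_assoc]
    exact mul_le_mul_of_nonneg_right (hcoef n hn.1) (by positivity)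
  have e1 : Real.log ((N * z : ℕ) : ℝ) = (B + 6 * E) * L := by
    rw [hN, hz, ← pow_add]
    push_cast
    rw [Real.log_pow]
    push_cast
    ring
  have e2 : Real.log ((z : ℕ) : ℝ) = 6 * E * L := by
    rw [hz]; push_cast; rw [Real.log_pow]; push_cast; ring
  rw [e1, e2] at t3
  have hBE : (6 * E + 1 : ℝ) * (1 / θ + 1) ≤ B := by
    refine hB1.trans ?_
    exact_mod_cast (by omega : B1 ≤ B)
  have hBE2 : (6 * E : ℝ) ≤ B := by exact_mod_cast (by omega : 6 * E ≤ B)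
  have hBL : 1 ≤ B * L := one_le_mul_of_one_le_of_one_le hBr hL.le
  -- numerics for the third term
  have n3 : 1 / W ^ 2 * (102 * (48 * W * (2 + (B + 6 * E) * L) + 32 * (1 + (B + 6 * E) * L) +
        32 * W ^ 2 * (6 * E * L))) ≤ 32640 * θ * (B * L) := by
    have hx : 1 / W ≤ θ := by
      rw [div_le_iff₀ hWp]
      have : 1 / θ ≤ W := by linarith
      rw [div_le_iff₀ hθ0] at this
      linarith
    have hx1 : 1 / W ≤ 1 := by
      rw [div_le_one hWp]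
      have : 0 < 1 / θ := by positivity
      linarith
    have hx0 : 0 < 1 / W := by positivity
    have e3 : 1 / W ^ 2 * (102 * (48 * W * (2 + (B + 6 * E) * L) + 32 * (1 + (B + 6 * E) * L) +
        32 * W ^ 2 * (6 * E * L))) =
        102 * (48 * (1 / W) * (2 + (B + 6 * E) * L) +
          32 * (1 / W) ^ 2 * (1 + (B + 6 * E) * L) + 32 * (6 * E * L)) := by
      field_simp
    rw [e3]
    have hEL : 6 * E * L ≤ θ * (B * L) := by
      have h2 : 6 * (E : ℝ) ≤ θ * B := by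
        have h3 : (6 * E : ℝ) * (1 / θ) ≤ B := by
          refine le_trans ?_ hBE
          have h4 : 0 < 1 / θ := by positivity
          exact mul_le_mul (by linarith) (by linarith) h4.le (by linarith)
        rw [mul_one_div, div_le_iff₀ hθ0] at h3
        linarith
      have h3 := mul_le_mul_of_nonneg_right h2 (by linarith : 0 ≤ L)
      linarith
    have hELB : 6 * E * L ≤ B * L := mul_le_mul_of_nonneg_right hBE2 (by linarith)
    have g1 : 2 + (B + 6 * E) * L ≤ 4 * (B * L) := by linarith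
    have g2 : 1 + (B + 6 * E) * L ≤ 3 * (B * L) := by linarith
    have g3 : 48 * (1 / W) * (2 + (B + 6 * E) * L) ≤ 48 * θ * (4 * (B * L)) := by
      apply mul_le_mul _ g1 _ (by positivity)
      · linarith
      · have : 0 ≤ (B + 6 * E) * L := by positivity
        linarith
    have g4 : 32 * (1 / W) ^ 2 * (1 + (B + 6 * E) * L) ≤ 32 * θ * (3 * (B * L)) := by
      apply mul_le_mul _ g2 _ (by positivity)
      · have h2 : (1 / W) ^ 2 ≤ 1 / W := by
          rw [sq]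
          exact mul_le_of_le_one_right hx0.le hx1
        linarith
      · have : 0 ≤ (B + 6 * E) * L := by positivity
        linarith
    linarith
  have n3' : 8 * (s + J : ℕ) / W ^ 2 * ∑ i ∈ range (s + J), (∑ n ∈ Ioc z (N * z),
      6 * (15 * (n : ℝ) + (1 + (Q : ℝ) ^ 2) / h) * ‖gcp W (PP y z) (fun p => 1 / p) (Ioc z N) (fun n => f i n / n)
        (fun n => f (i + 1) n / n) n‖ ^ 2) ≤ η / 4 * (B * L) := by
    have g1 := sum_le_sum fun i (_ : i ∈ range (s + J)) => t3 i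
    rw [sum_const, card_range, nsmul_eq_mul] at g1
    have g2 := mul_le_mul_of_nonneg_left g1 (by positivity : 0 ≤ 8 * (s + J : ℕ) / W ^ 2)
    refine g2.trans ?_
    have g3 : 8 * (s + J : ℕ) / W ^ 2 * ((s + J : ℕ) * (102 * (48 * W * (2 + (B + 6 * E) * L) +
        32 * (1 + (B + 6 * E) * L) + 32 * W ^ 2 * (6 * E * L)))) = 8 * ((s + J : ℕ) : ℝ) ^ 2 *
        (1 / W ^ 2 * (102 * (48 * W * (2 + (B + 6 * E) * L) + 32 * (1 + (B + 6 * E) * L) +
        32 * W ^ 2 * (6 * E * L)))) := by ring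
    rw [g3]
    have g4 := mul_le_mul_of_nonneg_left n3 (by positivity : 0 ≤ 8 * ((s + J : ℕ) : ℝ) ^ 2)
    refine g4.trans ?_
    have g5 : ((s + J : ℕ) : ℝ) ^ 2 ≤ M ^ 2 := pow_le_pow_left₀ (Nat.cast_nonneg _) (by linarith) 2
    calc 8 * ((s + J : ℕ) : ℝ) ^ 2 * (32640 * θ * (B * L)) ≤ 8 * M ^ 2 * (32640 * θ * (B * L)) := by
          apply mul_le_mul_of_nonneg_right _ (by positivity)
          linarith
      _ = 261120 / 10 ^ 7 * η * (B * L) := by rw [hθ]; field_simp; ring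
      _ ≤ η / 4 * (B * L) := by
          apply mul_le_mul_of_nonneg_right _ (by positivity)
          linarith
  have n1 : 4 * ((1 - c1) ^ J) ^ 2 * ((∫ x, EE h Q (Ioc z N) (fun n => f J n / n) x) +
      ∫ x, EE h Q (Ioc z N) (fun n => f (s + J) n / n) x) ≤ η / 4 * (B * L) := by
    have g1 := etriv J
    have g2 := etriv (s + J)
    calc _ ≤ 4 * (η / 4000) * (102 * (B * L) + 102 * (B * L)) := by
          apply mul_le_mul (by linarith) (by linarith) _ (by positivity)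
          exact add_nonneg (integral_nonneg (EE_nonneg _ _ _ _)) (integral_nonneg (EE_nonneg _ _ _ _))
      _ ≤ η / 4 * (B * L) := by
          have : 0 ≤ η * (B * L) := by positivity
          linarith
  have n2 : 2 * κ1 ^ 2 * (∫ x, EE h Q (Ioc z N) (fun n => f s n / n) x) ≤ η / 4 * (B * L) := by
    have g1 := mul_le_mul_of_nonneg_left (etriv s) (by positivity : 0 ≤ 2 * κ1 ^ 2)
    refine g1.trans ?_
    rw [hκ1s]
    have : 0 ≤ η * (B * L) := by positivity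
    linarith
  have n4 : (1 / (h * (K1 * (Q : ℝ) ^ 3))) ^ 2 * (∑ n ∈ Ioc z N, 6 * (15 * (n : ℝ) + (1 + (Q : ℝ) ^ 2) / h) *
      ‖f s n / (n : ℂ) - f 0 n / (n : ℂ)‖ ^ 2) ≤ η / 4 * (B * L) := by
    have h2 : h * (K1 * (Q : ℝ) ^ 3) = K1 := by rw [hh]; field_simp
    rw [h2, one_div, inv_pow, hK1s]
    refine (mul_le_mul_of_nonneg_left t4 (by positivity)).trans ?_
    have : (2000 / η)⁻¹ * (408 * (B * L)) = 408 / 2000 * η * (B * L) := by field_simp
    rw [this]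
    have : 0 ≤ η * (B * L) := by positivity
    linarith
  have e5 : (fun n : ℕ => (f s n - f 0 n) / (n : ℂ)) = fun n : ℕ => f s n / (n : ℂ) - f 0 n / (n : ℂ) := by
    ext n; rw [sub_div]
  rw [e5]
  refine key.trans ?_
  have h9 : η * (B * L) = η / 4 * (B * L) + η / 4 * (B * L) + η / 4 * (B * L) + η / 4 * (B * L) := by ring
  rw [h9]
  exact add_le_add (add_le_add (add_le_add n1 n2) n3') n4

end Pool.Agent.TH823.OP
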