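import Pool.Agent.TH823.OP.SmallJ

set_option autoImplicit false

/-!
# Pairs of functions: the energy at every scale
-/

open Finset MeasureTheory
open scoped Real
open Pool.Agent.Helper112

namespace Pool.Agent.TH823.OP

open Pool.Agent.TH823.PS Pool.Agent.TH823.EL Pool.Agent.W66 Pool.Agent.W66L

lemma gcp_tw {W : ℝ} {P : Finset ℕ} {w : ℕ → ℂ} {S K : Finset ℕ} (c c' : ℕ → ℂ)
    (hP : ∀ p ∈ P, 0 < p) (hS : ∀ s ∈ S, 0 < s) (hSK : ∀ s ∈ S, s ∈ K)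
    (hPK : ∀ s ∈ S, ∀ p ∈ P, p * s ∈ K) (h x : ℝ) (q a : ℕ) :
    ggC h K (fun k => gcp W P w S c c' k * ee (k * a / q)) x =
      (W : ℂ) * ggC h S (fun n => c n * ee (n * a / q)) x -
        ∑ p ∈ P, w p * ggC h S (fun n => c' n * ee (n * ((p * a : ℕ) : ℝ) / q)) (x - Real.log p) := by
  have e0 : (fun k : ℕ => gcp W P w S c c' k * ee (k * a / q)) =
      fun k : ℕ => gco W ∅ w S c k * ee (k * a / q) + gco 0 P w S c' k * ee (k * a / q) := by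
    ext k
    unfold gcp
    rw [add_mul]
  rw [e0, ggC_add, gco_tw c (fun p hp => absurd hp (notMem_empty p)) hS hSK
    (fun _ _ p hp => absurd hp (notMem_empty p)) h x q a, gco_tw c' hP hS hSK hPK h x q a, sum_empty]
  simp only [Complex.ofReal_zero, zero_mul, sub_zero, zero_sub]
  ring

/-- the pointwise inequality between the scales -/
lemma EEp_step {F : ℕ} {P S K : Finset ℕ} (w c c' : ℕ → ℂ)
    (hP : ∀ p ∈ P, p.Prime ∧ F < p) (hw : ∀ p ∈ P, ‖w p‖ ≤ 1 / p) (hS : ∀ s ∈ S, 0 < s) (hSK : ∀ s ∈ S, s ∈ K)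
    (hPK : ∀ s ∈ S, ∀ p ∈ P, p * s ∈ K) (h x : ℝ) :
    WP P ^ 2 * EE h F S c x ≤ 2 * EE h F K (gcp (WP P) P w S c c') x +
      2 * WP P * ∑ p ∈ P, 1 / (p : ℝ) * EE h F S c' (x - Real.log p) := by
  have hW0 := WP_nonneg P
  have hpt : ∀ q a : ℕ, WP P ^ 2 * ‖ggC h S (fun n => c n * ee (n * a / q)) x‖ ^ 2 ≤
      2 * ‖ggC h K (fun k => gcp (WP P) P w S c c' k * ee (k * a / q)) x‖ ^ 2 +
      2 * WP P * ∑ p ∈ P, 1 / (p : ℝ) *
        ‖ggC h S (fun n => c' n * ee (n * ((p * a : ℕ) : ℝ) / q)) (x - Real.log p)‖ ^ 2 := by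
    intro q a
    have h1 := gcp_tw (W := WP P) (w := w) c c' (fun p hp => (hP p hp).1.pos) hS hSK hPK h x q a
    set T := ggC h S (fun n => c n * ee (n * a / q)) x
    set G := ggC h K (fun k => gcp (WP P) P w S c c' k * ee (k * a / q)) x
    set U : ℕ → ℂ := fun p => ggC h S (fun n => c' n * ee (n * ((p * a : ℕ) : ℝ) / q)) (x - Real.log p) with hU
    have h2 : (WP P : ℂ) * T = G + ∑ p ∈ P, w p * U p := by rw [h1]; ring
    have h3 : WP P * ‖T‖ ≤ ‖G‖ + ∑ p ∈ P, 1 / (p : ℝ) * ‖U p‖ := by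
      calc WP P * ‖T‖ = ‖(WP P : ℂ) * T‖ := by rw [norm_mul, Complex.norm_real, Real.norm_of_nonneg hW0]
        _ ≤ ‖G‖ + ‖∑ p ∈ P, w p * U p‖ := by rw [h2]; exact norm_add_le _ _
        _ ≤ _ := by
          gcongr
          refine (norm_sum_le _ _).trans (sum_le_sum fun p hp => ?_)
          rw [norm_mul]
          exact mul_le_mul_of_nonneg_right (hw p hp) (norm_nonneg _)
    have h4 : (∑ p ∈ P, 1 / (p : ℝ) * ‖U p‖) ^ 2 ≤ WP P * ∑ p ∈ P, 1 / (p : ℝ) * ‖U p‖ ^ 2 := by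
      have h5 := sum_mul_sq_le_sq_mul_sq P (fun p => √(1 / (p : ℝ))) (fun p => √(1 / (p : ℝ)) * ‖U p‖)
      have h6 : ∀ p : ℕ, √(1 / (p : ℝ)) * (√(1 / (p : ℝ)) * ‖U p‖) = 1 / (p : ℝ) * ‖U p‖ := by
        intro p
        rw [← mul_assoc, Real.mul_self_sqrt (by positivity)]
      have h7 : ∀ p : ℕ, √(1 / (p : ℝ)) ^ 2 = 1 / (p : ℝ) := fun p => Real.sq_sqrt (by positivity)
      simp only [h6, mul_pow, h7] at h5
      exact h5
    have h5 : (WP P * ‖T‖) ^ 2 ≤ (‖G‖ + ∑ p ∈ P, 1 / (p : ℝ) * ‖U p‖) ^ 2 :=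
      pow_le_pow_left₀ (by positivity) h3 2
    have h6 : (‖G‖ + ∑ p ∈ P, 1 / (p : ℝ) * ‖U p‖) ^ 2 ≤ 2 * ‖G‖ ^ 2 + 2 * (∑ p ∈ P, 1 / (p : ℝ) * ‖U p‖) ^ 2 := by
      nlinarith [sq_nonneg (‖G‖ - ∑ p ∈ P, 1 / (p : ℝ) * ‖U p‖)]
    rw [mul_pow] at h5
    linarith
  unfold EE
  have h1 : ∀ q ∈ Icc 1 F, WP P ^ 2 * ∑ a ∈ rr q, ‖ggC h S (fun n => c n * ee (n * a / q)) x‖ ^ 2 ≤
      2 * ∑ a ∈ rr q, ‖ggC h K (fun k => gcp (WP P) P w S c c' k * ee (k * a / q)) x‖ ^ 2 +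
      2 * WP P * ∑ p ∈ P, 1 / (p : ℝ) *
        ∑ a ∈ rr q, ‖ggC h S (fun n => c' n * ee (n * a / q)) (x - Real.log p)‖ ^ 2 := by
    intro q hq
    rw [mem_Icc] at hq
    have h2 := sum_le_sum fun a (_ : a ∈ rr q) => hpt q a
    rw [← mul_sum, sum_add_distrib, ← mul_sum, ← mul_sum, sum_comm] at h2
    refine h2.trans (le_of_eq ?_)
    congr 2
    apply sum_congr rfl
    intro p hp
    rw [← mul_sum]
    congr 1
    have hcop : p.Coprime q := by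
      rw [Nat.Prime.coprime_iff_not_dvd (hP p hp).1]
      intro hd
      have := Nat.le_of_dvd (by omega) hd
      have := (hP p hp).2
      omega
    exact perm_rr (by omega) hcop
      (fun m => ‖ggC h S (fun n => c' n * ee (n * (m : ℝ) / q)) (x - Real.log p)‖ ^ 2) (fun m => by
        simp only [ee_mod (by omega : 0 < q)])
  calc _ = ∑ q ∈ Icc 1 F, WP P ^ 2 * ∑ a ∈ rr q, ‖ggC h S (fun n => c n * ee (n * a / q)) x‖ ^ 2 := by
        rw [mul_sum]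
    _ ≤ _ := sum_le_sum h1
    _ = _ := by
      rw [sum_add_distrib, ← mul_sum, ← mul_sum, sum_comm]
      congr 2
      apply sum_congr rfl
      intro p _
      rw [← mul_sum]

end Pool.Agent.TH823.OP
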